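import Pool.Agent.H99.FB.Tree

/-!
# Fusion inside a tree
-/

set_option autoImplicit false

namespace Pool.Agent.H99.FB

open Set

universe u

/-- dependent choice -/
theorem exists_seq {St : Type u} (Inv : ℕ → St → Prop) (R : ℕ → St → St → Prop) (x₀ : St)
    (h0 : Inv 0 x₀) (hs : ∀ n x, Inv n x → ∃ y, Inv (n + 1) y ∧ R n x y) :
    ∃ x : ℕ → St, x 0 = x₀ ∧ (∀ n, Inv n (x n)) ∧ ∀ n, R n (x n) (x (n + 1)) := by
  choose f hf1 hf2 using hs
  let x : (n : ℕ) → {y : St // Inv n y} := fun n => Nat.rec ⟨x₀, h0⟩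
    (fun k y => ⟨f k y.1 y.2, hf1 k y.1 y.2⟩) n
  exact ⟨fun n => (x n).1, rfl, fun n => (x n).2, fun n => hf2 n (x n).1 (x n).2⟩

/-- the states of the fusion -/
structure CSt (W : Type) where
  a : Finset (List ℕ)
  G : Finset ℕ
  used : Finset W
  D : Set ℕ

theorem comb {W : Type} (T : Tr) (A : Set ℕ) (hA : T.pos A) (Φ : W → Set ℕ → Prop)
    (h : ∀ (a : Finset (List ℕ)) (G : Finset ℕ), (∀ u ∈ a, (T.sub u).pos A) →
      (↑G : Set ℕ) ⊆ A →
      {β | ∃ B, Φ β B ∧ (↑G : Set ℕ) ⊆ B ∧ ∀ u ∈ a, (T.sub u).big B}.Infinite) :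
    ∃ X ⊆ A, T.pos X ∧ ∃ I : Set W, I.Infinite ∧ ∃ Bf : W → Set ℕ,
      ∀ β ∈ I, Φ β (Bf β) ∧ X ⊆ Bf β := by
  classical
  obtain ⟨e, he⟩ := exists_visits (List ℕ)
  let Inv : ℕ → CSt W → Prop := fun _ σ => [] ∈ σ.a ∧
    (∀ u ∈ σ.a, (T.sub u).pos A ∧ (T.sub u).big σ.D) ∧ (↑σ.G : Set ℕ) ⊆ A ∩ σ.D
  let R : ℕ → CSt W → CSt W → Prop := fun n σ σ' => σ.a ⊆ σ'.a ∧ σ.G ⊆ σ'.G ∧ σ'.D ⊆ σ.D ∧
    (∀ f, e n ∈ σ.a → T.sub (e n) = .node f → ∃ j ≥ n, e n ++ [j] ∈ σ'.a) ∧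
    (∀ C, e n ∈ σ.a → T.sub (e n) = .leaf C → ∃ z ≥ n, z ∈ C ∧ z ∈ σ'.G) ∧
    σ.used ⊆ σ'.used ∧ ∃ β ∉ σ.used, β ∈ σ'.used ∧ ∃ B, Φ β B ∧ σ'.D ⊆ B
  have hstep : ∀ n σ, Inv n σ → ∃ σ', Inv (n + 1) σ' ∧ R n σ σ' := by
    rintro n σ ⟨i1, i2, i3⟩
    -- activation
    have hact : ∃ (a' : Finset (List ℕ)) (G' : Finset ℕ), σ.a ⊆ a' ∧ σ.G ⊆ G' ∧
        (∀ u ∈ a', (T.sub u).pos A ∧ (T.sub u).big σ.D) ∧ (↑G' : Set ℕ) ⊆ A ∩ σ.D ∧
        (∀ f, e n ∈ σ.a → T.sub (e n) = .node f → ∃ j ≥ n, e n ++ [j] ∈ a') ∧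
        (∀ C, e n ∈ σ.a → T.sub (e n) = .leaf C → ∃ z ≥ n, z ∈ C ∧ z ∈ G') := by
      by_cases hen : e n ∈ σ.a
      · obtain ⟨k1, k2⟩ := i2 _ hen
        cases hT : T.sub (e n) with
        | leaf C =>
          rw [hT] at k1 k2
          have h1 : (A ∩ σ.D ∩ C).Infinite := pos_inter_big k1 k2
          obtain ⟨z, hz, hz'⟩ := h1.exists_gt n
          refine ⟨σ.a, insert z σ.G, Finset.Subset.refl _, Finset.subset_insert _ _, i2, ?_, ?_,
            ?_⟩
          · rw [Finset.coe_insert]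
            exact insert_subset hz.1 i3
          · intro f _ hf
            cases hf
          · intro C' _ hC'
            cases hC'
            exact ⟨z, hz'.le, hz.2, Finset.mem_insert_self _ _⟩
        | node f =>
          rw [hT] at k1 k2
          have h1 : ∃ N, ∀ j ≥ N, ¬ (f j).pos σ.Dᶜ := by
            by_contra hcon
            push Not at hcon
            exact k2 hcon
          obtain ⟨N, hN⟩ := h1
          obtain ⟨j, hj, hj'⟩ := k1 (max n N)
          refine ⟨insert (e n ++ [j]) σ.a, σ.G, Finset.subset_insert _ _, Finset.Subset.refl _,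
            ?_, i3, ?_, ?_⟩
          · intro u hu
            rcases Finset.mem_insert.1 hu with rfl | hu
            · rw [sub_append_node hT]
              exact ⟨hj', hN j (le_of_max_le_right hj)⟩
            · exact i2 u hu
          · intro f' _ hf'
            cases hf'
            exact ⟨j, le_of_max_le_left hj, Finset.mem_insert_self _ _⟩
          · intro C' _ hC'
            cases hC'
      · exact ⟨σ.a, σ.G, Finset.Subset.refl _, Finset.Subset.refl _, i2, i3,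
          fun f h1 => absurd h1 hen, fun C h1 => absurd h1 hen⟩
    obtain ⟨a', G', k1, k2, k3, k4, k5, k6⟩ := hact
    obtain ⟨β, ⟨B, hB1, hB2, hB3⟩, hβ⟩ := (h a' G' (fun u hu => (k3 u hu).1)
      (k4.trans inter_subset_left)).exists_notMem_finset σ.used
    refine ⟨⟨a', G', insert β σ.used, σ.D ∩ B⟩, ⟨k1 i1, fun u hu => ⟨(k3 u hu).1,
      big_inter (k3 u hu).2 (hB3 u hu)⟩, ?_⟩, k1, k2, inter_subset_left, k5, k6,
      Finset.subset_insert _ _, β, hβ, Finset.mem_insert_self _ _, B, hB1, inter_subset_right⟩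
    intro z hz
    exact ⟨(k4 hz).1, (k4 hz).2, hB2 hz⟩
  obtain ⟨x, hx0, hx1, hx2⟩ := exists_seq Inv R ⟨{[]}, ∅, ∅, univ⟩
    (by
      refine ⟨Finset.mem_singleton_self _, fun u hu => ?_, by simp⟩
      rw [Finset.mem_singleton.1 hu]
      refine ⟨by simpa [Tr.sub] using hA, ?_⟩
      intro h1
      rw [compl_univ] at h1
      exact pos_infinite h1 finite_empty) hstep
  have ha : ∀ {m n}, m ≤ n → (x m).a ⊆ (x n).a := fun hmn =>
    monotone_nat_of_le_succ (f := fun n => (x n).a) (fun n => (hx2 n).1) hmn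
  have hG : ∀ {m n}, m ≤ n → (x m).G ⊆ (x n).G := fun hmn =>
    monotone_nat_of_le_succ (f := fun n => (x n).G) (fun n => (hx2 n).2.1) hmn
  have hD : ∀ {m n}, m ≤ n → (x n).D ⊆ (x m).D := fun hmn =>
    antitone_nat_of_succ_le (f := fun n => (x n).D) (fun n => (hx2 n).2.2.1) hmn
  have hused : ∀ {m n}, m ≤ n → (x m).used ⊆ (x n).used := fun hmn =>
    monotone_nat_of_le_succ (f := fun n => (x n).used) (fun n => (hx2 n).2.2.2.2.2.1) hmn
  let X : Set ℕ := ⋃ n, ↑(x n).G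
  have hXD : ∀ n, X ⊆ (x n).D := by
    intro n
    refine iUnion_subset fun m => ?_
    intro z hz
    have h1 : z ∈ (x (max m n)).G := hG (le_max_left m n) hz
    exact hD (le_max_right m n) ((hx1 (max m n)).2.2 h1).2
  have hX : ∀ (S : Tr) (u : List ℕ) (n : ℕ), u ∈ (x n).a → T.sub u = S → S.pos X := by
    intro S
    induction S with
    | leaf C =>
      intro u n hu hS
      refine Set.infinite_of_forall_exists_gt fun N => ?_
      obtain ⟨m, hm, hm'⟩ := he u (max n (N + 1))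
      obtain ⟨z, hz, hz1, hz2⟩ := (hx2 m).2.2.2.2.1 C
        (by rw [hm']; exact ha (le_of_max_le_left hm) hu) (by rw [hm']; exact hS)
      refine ⟨z, ⟨mem_iUnion.2 ⟨m + 1, hz2⟩, hz1⟩, ?_⟩
      have := le_of_max_le_right hm
      omega
    | node f ih =>
      intro u n hu hS N
      obtain ⟨m, hm, hm'⟩ := he u (max n N)
      obtain ⟨j, hj, hj'⟩ := (hx2 m).2.2.2.1 f
        (by rw [hm']; exact ha (le_of_max_le_left hm) hu) (by rw [hm']; exact hS)
      rw [hm'] at hj'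
      exact ⟨j, (le_of_max_le_right hm).trans hj, ih j _ _ hj' (sub_append_node hS j)⟩
  choose β hβ1 hβ2 B hB1 hB2 using fun n => (hx2 n).2.2.2.2.2.2
  have hinj : Function.Injective β := by
    have h1 : ∀ m n, m < n → β m ≠ β n := by
      intro m n hmn h
      exact hβ1 n (h ▸ hused (Nat.succ_le_of_lt hmn) (hβ2 m))
    intro m n h
    rcases lt_trichotomy m n with h2 | h2 | h2
    · exact absurd h (h1 m n h2)
    · exact h2
    · exact absurd h.symm (h1 n m h2)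
  refine ⟨X, ?_, hX T [] 0 ?_ (by cases T <;> rfl), range β,
    infinite_range_of_injective hinj, Function.extend β B fun _ => univ, ?_⟩
  · exact iUnion_subset fun n => ((hx1 n).2.2).trans inter_subset_left
  · rw [hx0]
    exact Finset.mem_singleton_self _
  · rintro _ ⟨n, rfl⟩
    rw [hinj.extend_apply]
    exact ⟨hB1 n, (hXD (n + 1)).trans (hB2 n)⟩

end Pool.Agent.H99.FB
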