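import Pool.Agent.H99.FB.Tree
import Pool.Graph.R_seed8.H282R3.FP.Stmts

/-!
# The conditions
-/

set_option autoImplicit false

namespace Pool.Agent.H99.FB

open Set
open Pool.Agent.H282R3.FP (OmegaOneLike)

variable {W : Type} [LinearOrder W]

/-- `l` is a limit element. -/
def Lmt (l : W) : Prop := (∃ g, g < l) ∧ ∀ g < l, ∃ x, g < x ∧ x < l

/-- On the interval `[c, d)` the function `b` is bounded by `s l` close to each limit `l`. -/
def LS (s b : W → ℕ) (c d : W) : Prop :=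
  ∀ l, Lmt l → c < l → l ≤ d → ∃ g < l, ∀ x, c ≤ x → g < x → x < l → b x ≤ s l

/-- There is a bound function `b ≤ k` with `LS` such that `h x ≤ b x` on almost all of `A`, for
all `x` in `[c, d)`. -/
def Bdd (s : W → ℕ) (h : W → ℕ → ℕ) (c d : W) (k : ℕ) (A : Set ℕ) : Prop :=
  ∃ b : W → ℕ, LS s b c d ∧ (∀ x, c ≤ x → x < d → b x ≤ k) ∧
    ∀ x, c ≤ x → x < d → (A \ {z | h x z ≤ b x}).Finite

section

variable {s s' : W → ℕ} {h h' : W → ℕ → ℕ} {c d e : W} {k k' : ℕ} {A A' : Set ℕ}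

theorem Bdd.mono (hB : Bdd s h c d k A) (hk : k ≤ k') (hA : (A' \ A).Finite) :
    Bdd s h c d k' A' := by
  obtain ⟨b, h1, h2, h3⟩ := hB
  refine ⟨b, h1, fun x hx hx' => (h2 x hx hx').trans hk, fun x hx hx' => ?_⟩
  refine (hA.union (h3 x hx hx')).subset ?_
  rintro z ⟨hz, hz'⟩
  by_cases hzA : z ∈ A
  · exact Or.inr ⟨hzA, hz'⟩
  · exact Or.inl ⟨hz, hzA⟩

theorem Bdd.sub (hB : Bdd s h c d k A) (hA : A' ⊆ A) : Bdd s h c d k A' :=
  hB.mono le_rfl (by rw [sdiff_eq_empty.2 hA]; exact finite_empty)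

theorem Bdd.congr (hB : Bdd s h c d k A) (hs : ∀ x ≤ d, s' x = s x) (hh : ∀ x < d, h' x = h x) :
    Bdd s' h' c d k A := by
  obtain ⟨b, h1, h2, h3⟩ := hB
  refine ⟨b, ?_, h2, fun x hx hx' => by rw [hh x hx']; exact h3 x hx hx'⟩
  intro l hl hcl hld
  rw [hs l hld]
  exact h1 l hl hcl hld

theorem LS.glue {b b' : W → ℕ} (h1 : LS s b c d) (h2 : LS s b' d e) :
    LS s (fun x => if x < d then b x else b' x) c e := by
  intro l hl hcl hle
  by_cases hld : l ≤ d
  · obtain ⟨g, hg, h3⟩ := h1 l hl hcl hld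
    refine ⟨g, hg, fun x hx hgx hxl => ?_⟩
    simp only [if_pos (hxl.trans_le hld)]
    exact h3 x hx hgx hxl
  · push Not at hld
    obtain ⟨g, hg, h3⟩ := h2 l hl hld hle
    refine ⟨max g d, max_lt hg hld, fun x hx hgx hxl => ?_⟩
    have hdx : d < x := lt_of_le_of_lt (le_max_right _ _) hgx
    simp only [if_neg hdx.not_gt]
    exact h3 x hdx.le (lt_of_le_of_lt (le_max_left _ _) hgx) hxl

theorem Bdd.glue (h1 : Bdd s h c d k A) (h2 : Bdd s h d e k A) : Bdd s h c e k A := by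
  obtain ⟨b, k1, k2, k3⟩ := h1
  obtain ⟨b', l1, l2, l3⟩ := h2
  refine ⟨_, k1.glue l1, fun x hx hx' => ?_, fun x hx hx' => ?_⟩
  · by_cases hxd : x < d
    · simp only [if_pos hxd]
      exact k2 x hx hxd
    · simp only [if_neg hxd]
      exact l2 x (not_lt.1 hxd) hx'
  · by_cases hxd : x < d
    · simp only [if_pos hxd]
      exact k3 x hx hxd
    · simp only [if_neg hxd]
      exact l3 x (not_lt.1 hxd) hx'

theorem Bdd.self : Bdd s h c c k A :=
  ⟨fun _ => 0, fun _ _ h1 h2 => absurd h1 h2.not_gt, fun _ h1 h2 => absurd h2 h1.not_gt,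
    fun _ h1 h2 => absurd h2 h1.not_gt⟩

theorem Bdd.zero (hA : ∀ x, c ≤ x → x < d → (A \ {z | h x z = 0}).Finite) :
    Bdd s h c d k A := by
  refine ⟨fun _ => 0, fun l hl hcl hld => ⟨c, hcl, fun _ _ _ _ => Nat.zero_le _⟩,
    fun _ _ _ => Nat.zero_le _, fun x hx hx' => (hA x hx hx').subset ?_⟩
  rintro z ⟨hz, hz'⟩
  exact ⟨hz, fun h1 => hz' (le_of_eq h1)⟩

theorem Bdd.union (h1 : Bdd s h c d k A) (h2 : Bdd s h c d k A') : Bdd s h c d k (A ∪ A') := by
  obtain ⟨b, k1, k2, k3⟩ := h1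
  obtain ⟨b', l1, l2, l3⟩ := h2
  refine ⟨fun x => max (b x) (b' x), ?_, fun x hx hx' => max_le (k2 x hx hx') (l2 x hx hx'),
    fun x hx hx' => ((k3 x hx hx').union (l3 x hx hx')).subset ?_⟩
  · intro l hl hcl hld
    obtain ⟨g, hg, h3⟩ := k1 l hl hcl hld
    obtain ⟨g', hg', h3'⟩ := l1 l hl hcl hld
    refine ⟨max g g', max_lt hg hg', fun x hx hgx hxl => max_le ?_ ?_⟩
    · exact h3 x hx (lt_of_le_of_lt (le_max_left _ _) hgx) hxl
    · exact h3' x hx (lt_of_le_of_lt (le_max_right _ _) hgx) hxl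
  · rintro z ⟨hz | hz, hz'⟩
    · exact Or.inl ⟨hz, fun h3 => hz' (le_trans h3 (le_max_left (b x) (b' x)))⟩
    · exact Or.inr ⟨hz, fun h3 => hz' (le_trans h3 (le_max_right (b x) (b' x)))⟩

theorem Bdd.empty : Bdd s h c d k ∅ := Bdd.zero fun x _ _ => by simp

theorem Bdd.biUnion {ι : Type} (a : Finset ι) (B : ι → Set ℕ)
    (hB : ∀ i ∈ a, Bdd s h c d k (B i)) : Bdd s h c d k (⋃ i ∈ a, B i) := by
  classical
  induction a using Finset.induction_on with
  | empty => simpa using Bdd.empty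
  | insert i a _ ih =>
    rw [Finset.set_biUnion_insert]
    exact (hB i (Finset.mem_insert_self _ _)).union
      (ih fun j hj => hB j (Finset.mem_insert_of_mem hj))

end

/-- Conditions. `h x` (`x < d`) are functions which will be unbounded modulo the ultrafilter, `Y`
is a countable record of sets, and the sets which are not positive for the tree `T` are outside of
the ultrafilter. -/
structure Cond (W : Type) [LinearOrder W] where
  d : W
  s : W → ℕ
  h : W → ℕ → ℕ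
  Y : Set (Set ℕ)
  T : Tr
  hYc : Y.Countable
  hYi : ∀ A ∈ Y, ∀ B ∈ Y, A ∩ B ∈ Y
  hYu : univ ∈ Y
  hYe : ∅ ∈ Y
  hYh : ∀ x < d, ∀ m, {z | h x z = m} ∈ Y
  hal : T.Al Y
  hpos : T.pos univ
  hnull : ∀ x < d, ∀ m, ¬ T.pos {z | h x z < m}
  hcol : ∀ A, T.pos A → ∃ C ⊆ A, C.Infinite ∧ ∃ e : W → ℕ,
    (∀ l, Lmt l → l ≤ d → ∃ g < l, ∀ x, g < x → x < l → e x ≤ s l) ∧
    ∀ x < d, (C \ {z | h x z ≤ e x}).Finite

/-- `q ≤ p`: `q` is stronger than `p`. -/
instance : Preorder (Cond W) where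
  le q p := p.d ≤ q.d ∧ (∀ x ≤ p.d, q.s x = p.s x) ∧ (∀ x < p.d, q.h x = p.h x) ∧ p.Y ⊆ q.Y ∧
    (∀ C ∈ p.Y, C.Infinite → ∀ t : Finset W, (∀ x ∈ t, p.d ≤ x ∧ x < q.d) → ∀ e : W → ℕ,
      (C ∩ {z | ∀ x ∈ t, q.h x z = e x}).Infinite) ∧
    (∀ A, q.T.pos A → ∃ A' ⊆ A, p.T.pos A' ∧ ∃ k, Bdd q.s q.h p.d q.d k A')
  le_refl p := by
    refine ⟨le_rfl, fun _ _ => rfl, fun _ _ => rfl, Subset.rfl, ?_,
      fun A hA => ⟨A, Subset.rfl, hA, 0, Bdd.self⟩⟩
    intro C _ hCi t ht e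
    have : t = ∅ := by
      rw [Finset.eq_empty_iff_forall_notMem]
      intro x hx
      exact absurd (ht x hx).2 (ht x hx).1.not_gt
    subst this
    simpa using hCi
  le_trans r q p hrq hqp := by
    classical
    obtain ⟨h1, h2, h3, h4, h5, h6⟩ := hrq
    obtain ⟨k1, k2, k3, k4, k5, k6⟩ := hqp
    refine ⟨k1.trans h1, fun x hx => (h2 x (hx.trans k1)).trans (k2 x hx),
      fun x hx => (h3 x (hx.trans_le k1)).trans (k3 x hx), k4.trans h4, ?_, ?_⟩
    · intro C hC hCi t ht e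
      have hD : ∀ t : Finset W, (∀ x ∈ t, p.d ≤ x ∧ x < q.d) →
          C ∩ {z | ∀ x ∈ t, q.h x z = e x} ∈ q.Y := by
        intro t
        induction t using Finset.induction_on with
        | empty => intro _; simpa using k4 hC
        | insert x t _ ih =>
          intro ht
          have h7 := ih fun y hy => ht y (Finset.mem_insert_of_mem hy)
          have h8 := q.hYi _ h7 _ (q.hYh x (ht x (Finset.mem_insert_self _ _)).2 (e x))
          have h9 : C ∩ {z | ∀ y ∈ insert x t, q.h y z = e y} =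
              C ∩ {z | ∀ y ∈ t, q.h y z = e y} ∩ {z | q.h x z = e x} := by
            ext z
            simp only [Finset.mem_insert, forall_eq_or_imp, mem_inter_iff, mem_ofPred_eq]
            tauto
          rw [h9]
          exact h8
      have h7 : (C ∩ {z | ∀ x ∈ t.filter (· < q.d), q.h x z = e x}).Infinite :=
        k5 C hC hCi _ (fun x hx => by
          rw [Finset.mem_filter] at hx
          exact ⟨(ht x hx.1).1, hx.2⟩) e
      have h8 := h5 _ (hD (t.filter (· < q.d)) (fun x hx => by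
          rw [Finset.mem_filter] at hx
          exact ⟨(ht x hx.1).1, hx.2⟩)) h7 (t.filter (q.d ≤ ·)) (fun x hx => by
          rw [Finset.mem_filter] at hx
          exact ⟨hx.2, (ht x hx.1).2⟩) e
      refine h8.mono ?_
      rintro z ⟨⟨hz1, hz2⟩, hz3⟩
      refine ⟨hz1, fun x hx => ?_⟩
      by_cases hxq : x < q.d
      · rw [h3 x hxq]
        exact hz2 x (Finset.mem_filter.2 ⟨hx, hxq⟩)
      · exact hz3 x (Finset.mem_filter.2 ⟨hx, not_lt.1 hxq⟩)
    · intro A hA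
      obtain ⟨A1, hA1, hp1, m1, hb1⟩ := h6 A hA
      obtain ⟨A2, hA2, hp2, m2, hb2⟩ := k6 A1 hp1
      refine ⟨A2, hA2.trans hA1, hp2, max m1 m2, ?_⟩
      refine Bdd.glue (d := q.d) ?_ ?_
      · exact (hb2.congr (fun x hx => h2 x hx) (fun x hx => h3 x hx)).mono (le_max_right _ _)
          (by simp)
      · exact (hb1.sub hA2).mono (le_max_left _ _) (by simp)

theorem Cond.le_def {q p : Cond W} : q ≤ p ↔ p.d ≤ q.d ∧ (∀ x ≤ p.d, q.s x = p.s x) ∧
    (∀ x < p.d, q.h x = p.h x) ∧ p.Y ⊆ q.Y ∧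
    (∀ C ∈ p.Y, C.Infinite → ∀ t : Finset W, (∀ x ∈ t, p.d ≤ x ∧ x < q.d) → ∀ e : W → ℕ,
      (C ∩ {z | ∀ x ∈ t, q.h x z = e x}).Infinite) ∧
    (∀ A, q.T.pos A → ∃ A' ⊆ A, p.T.pos A' ∧ ∃ k, Bdd q.s q.h p.d q.d k A') := Iff.rfl

/-- The sets which `p` puts into the ultrafilter. -/
def F (p : Cond W) : Set (Set ℕ) := {B | p.T.big B}

theorem F_mono {q p : Cond W} (hqp : q ≤ p) : F p ⊆ F q := by
  intro B hB h1
  obtain ⟨A', hA', h2, _⟩ := hqp.2.2.2.2.2 _ h1
  exact hB (pos_mono hA' h2)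

theorem F_up {p : Cond W} {B B' : Set ℕ} (h : B ∈ F p) (hB : B ⊆ B') : B' ∈ F p := big_up h hB

theorem F_inter {p : Cond W} {B B' : Set ℕ} (h : B ∈ F p) (h' : B' ∈ F p) : B ∩ B' ∈ F p :=
  big_inter h h'

theorem pos_of_F {p : Cond W} {B : Set ℕ} (h : B ∈ F p) : p.T.pos B := by
  have h1 := pos_inter_big p.hpos h
  rwa [univ_inter] at h1

theorem F_infinite {p : Cond W} {B : Set ℕ} (h : B ∈ F p) : B.Infinite := pos_infinite (pos_of_F h)

theorem F_univ (p : Cond W) : univ ∈ F p := by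
  intro h
  rw [compl_univ] at h
  exact pos_infinite h finite_empty

theorem ge_mem_F {p : Cond W} {x : W} (hx : x < p.d) (m : ℕ) : {z | m ≤ p.h x z} ∈ F p := by
  intro h1
  refine p.hnull x hx m (pos_mono ?_ h1)
  intro z hz
  simpa using hz

/-! ### Recording and restricting -/

/-- add countably many sets to the record -/
theorem record (p : Cond W) (S : Set (Set ℕ)) (hS : S.Countable) :
    ∃ q ≤ p, q.d = p.d ∧ q.s = p.s ∧ q.h = p.h ∧ q.T = p.T ∧ S ⊆ q.Y := by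
  have hsub : p.Y ⊆ Cl (p.Y ∪ S) := subset_union_left.trans (subset_Cl _)
  refine ⟨⟨p.d, p.s, p.h, Cl (p.Y ∪ S), p.T, Cl_countable (p.hYc.union hS), Cl_inter,
    univ_mem_Cl _, hsub p.hYe, fun x hx m => hsub (p.hYh x hx m), Al_mono hsub p.hal, p.hpos,
    p.hnull, p.hcol⟩, ⟨le_rfl, fun _ _ => rfl, fun _ _ => rfl, hsub, ?_,
    fun A hA => ⟨A, Subset.rfl, hA, 0, Bdd.self⟩⟩, rfl, rfl, rfl, rfl,
    subset_union_right.trans (subset_Cl _)⟩
  intro C _ hCi t ht e
  have : t = ∅ := by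
    rw [Finset.eq_empty_iff_forall_notMem]
    intro x hx
    exact absurd (ht x hx).2 (ht x hx).1.not_gt
  subst this
  simpa using hCi

/-- put a positive set into the filter -/
theorem restrict (p : Cond W) (Z : Set ℕ) (hZ : p.T.pos Z) :
    ∃ q ≤ p, q.d = p.d ∧ Z ∈ F q := by
  have hsub : p.Y ⊆ Cl (p.Y ∪ {Z}) := subset_union_left.trans (subset_Cl _)
  refine ⟨⟨p.d, p.s, p.h, Cl (p.Y ∪ {Z}), p.T.restr Z,
    Cl_countable (p.hYc.union (countable_singleton Z)), Cl_inter,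
    univ_mem_Cl _, hsub p.hYe, fun x hx m => hsub (p.hYh x hx m),
    Al_restr Cl_inter (subset_Cl _ (Or.inr rfl)) (Al_mono hsub p.hal), ?_, ?_, ?_⟩,
    ⟨le_rfl, fun _ _ => rfl, fun _ _ => rfl, hsub, ?_, ?_⟩, rfl, ?_⟩
  · rw [pos_restr, univ_inter]
    exact hZ
  · intro x hx m h1
    exact p.hnull x hx m (pos_mono inter_subset_left (pos_restr.1 h1))
  · intro A hA
    obtain ⟨C, hC, h1⟩ := p.hcol _ (pos_restr.1 hA)
    exact ⟨C, hC.trans inter_subset_left, h1⟩
  · intro C _ hCi t ht e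
    have : t = ∅ := by
      rw [Finset.eq_empty_iff_forall_notMem]
      intro x hx
      exact absurd (ht x hx).2 (ht x hx).1.not_gt
    subst this
    simpa using hCi
  · intro A hA
    exact ⟨A ∩ Z, inter_subset_left, pos_restr.1 hA, 0, Bdd.self⟩
  · intro h1
    have h2 := pos_restr.1 h1
    rw [compl_inter_self] at h2
    exact pos_infinite h2 finite_empty

theorem decide_set (p : Cond W) (Z : Set ℕ) : ∃ q ≤ p, Z ∈ F q ∨ Zᶜ ∈ F q := by
  have h1 := p.hpos
  rw [← union_compl_self Z] at h1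
  rcases pos_union h1 with h2 | h2
  · obtain ⟨q, hq, _, h3⟩ := restrict p Z h2
    exact ⟨q, hq, Or.inl h3⟩
  · obtain ⟨q, hq, _, h3⟩ := restrict p _ h2
    exact ⟨q, hq, Or.inr h3⟩

/-! ### Growing -/

theorem exists_generic (Y : Set (Set ℕ)) (hY : Y.Countable) :
    ∃ g : ℕ → ℕ, ∀ C ∈ Y, C.Infinite → ∀ m, (C ∩ {z | g z = m}).Infinite := by
  classical
  by_cases hne : ∃ C ∈ Y, C.Infinite
  · obtain ⟨C₀, hC₀, hC₀i⟩ := hne
    have : Countable {C | C ∈ Y ∧ C.Infinite} := (hY.mono fun C hC => hC.1).to_subtype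
    have : Nonempty {C | C ∈ Y ∧ C.Infinite} := ⟨⟨C₀, hC₀, hC₀i⟩⟩
    obtain ⟨e, he⟩ := exists_visits ({C | C ∈ Y ∧ C.Infinite} × ℕ)
    -- choose an increasing sequence of points
    have h1 : ∀ n N, ∃ z, z ∈ (e n).1.1 ∧ N < z := fun n N => by
      obtain ⟨z, hz, hz'⟩ := (e n).1.2.2.exists_gt N
      exact ⟨z, hz, hz'⟩
    choose c hc1 hc2 using h1
    let z : ℕ → ℕ := fun n => Nat.rec (c 0 0) (fun i y => c (i + 1) y) n
    have hz0 : ∀ n, z (n + 1) = c (n + 1) (z n) := fun n => rfl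
    have hzmono : StrictMono z := strictMono_nat_of_lt_succ fun n => by
      rw [hz0]; exact hc2 _ _
    have hzmem : ∀ n, z n ∈ (e n).1.1 := by
      intro n
      cases n with
      | zero => exact hc1 0 0
      | succ n => rw [hz0]; exact hc1 _ _
    refine ⟨Function.extend z (fun n => (e n).2) 0, ?_⟩
    intro C hC hCi m
    refine Set.infinite_of_forall_exists_gt fun N => ?_
    obtain ⟨n, hn, hn'⟩ := he (⟨C, hC, hCi⟩, m) (N + 1)
    refine ⟨z n, ⟨?_, ?_⟩, ?_⟩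
    · have := hzmem n
      rw [hn'] at this
      exact this
    · show Function.extend z (fun n => (e n).2) 0 (z n) = m
      rw [hzmono.injective.extend_apply, hn']
    · have := hzmono.le_apply (x := n)
      omega
  · exact ⟨fun _ => 0, fun C hC hCi => absurd ⟨C, hC, hCi⟩ hne⟩

theorem grow (p : Cond W) (e : W) (he : ∀ x, x < e ↔ x ≤ p.d) (c : ℕ) :
    ∃ q ≤ p, q.d = e ∧ q.s e = c := by
  classical
  obtain ⟨g, hg⟩ := exists_generic p.Y p.hYc
  have hde : p.d < e := (he _).2 le_rfl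
  have hne : ¬ Lmt e := fun h1 => by
    obtain ⟨x, hx1, hx2⟩ := h1.2 p.d hde
    exact absurd ((he x).1 hx2) hx1.not_ge
  let h' : W → ℕ → ℕ := fun x => if x = p.d then g else p.h x
  have hh : ∀ x < p.d, h' x = p.h x := fun x hx => if_neg hx.ne
  have hhd : h' p.d = g := if_pos rfl
  let s' : W → ℕ := fun x => if x = e then c else p.s x
  have hs : ∀ x ≤ p.d, s' x = p.s x := fun x hx => if_neg (hx.trans_lt hde).ne
  let Y' := Cl (p.Y ∪ range fun m => {z | g z = m})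
  have hsub : p.Y ⊆ Y' := subset_union_left.trans (subset_Cl _)
  have hgY : ∀ m, {z | g z = m} ∈ Y' := fun m => subset_Cl _ (Or.inr ⟨m, rfl⟩)
  have hpos : ∀ A n, (p.T.restr {z | g z = n}).pos A → p.T.pos (A ∩ {z | g z = n}) :=
    fun A n h1 => pos_restr.1 h1
  have hLS : ∀ b : W → ℕ, LS s' b p.d e := by
    intro b l hl h1 h2
    rcases h2.lt_or_eq with h3 | h3
    · exact absurd ((he l).1 h3) h1.not_ge
    · exact absurd (h3 ▸ hl) hne
  refine ⟨⟨e, s', h', Y', .node fun m => p.T.restr {z | g z = m},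
    Cl_countable (p.hYc.union (countable_range _)), Cl_inter, univ_mem_Cl _, hsub p.hYe, ?_, ?_,
    ?_, ?_, ?_⟩, ⟨hde.le, hs, hh, hsub, ?_, ?_⟩, rfl, if_pos rfl⟩
  · intro x hx m
    rcases ((he x).1 hx).lt_or_eq with h1 | h1
    · rw [hh x h1]
      exact hsub (p.hYh x h1 m)
    · rw [h1, hhd]
      exact hgY m
  · exact fun n => Al_restr Cl_inter (hgY n) (Al_mono hsub p.hal)
  · intro N
    refine ⟨N, le_rfl, pos_restr.2 ?_⟩
    exact pos_inter_hit p.hYi (fun C hC hCi => hg C hC hCi N) p.hYu p.hal p.hpos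
  · intro x hx m h1
    obtain ⟨n, hn, h2⟩ := h1 m
    have h3 := hpos _ _ h2
    rcases ((he x).1 hx).lt_or_eq with h4 | h4
    · rw [hh x h4] at h3
      exact p.hnull x h4 m (pos_mono inter_subset_left h3)
    · rw [h4, hhd] at h3
      have h5 : {z | g z < m} ∩ {z | g z = n} = ∅ := by
        ext z
        simp only [mem_inter_iff, mem_ofPred_eq, mem_empty_iff_false, iff_false, not_and]
        intro h6 h7
        omega
      rw [h5] at h3
      exact pos_infinite h3 finite_empty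
  · intro A hA
    obtain ⟨n, _, h2⟩ := hA 0
    obtain ⟨C, hC, hCi, e', he1, he2⟩ := p.hcol _ (hpos _ _ h2)
    refine ⟨C, hC.trans inter_subset_left, hCi, fun x => if x = p.d then n else e' x, ?_, ?_⟩
    · intro l hl hle
      have hlp : l ≤ p.d := by
        rcases hle.lt_or_eq with h3 | h3
        · exact (he l).1 h3
        · exact absurd (h3 ▸ hl) hne
      obtain ⟨g', hg', h3⟩ := he1 l hl hlp
      refine ⟨g', hg', fun x hx hxl => ?_⟩
      rw [hs l hlp]
      simp only [if_neg (hxl.trans_le hlp).ne]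
      exact h3 x hx hxl
    · intro x hx
      rcases ((he x).1 hx).lt_or_eq with h4 | h4
      · rw [hh x h4]
        simp only [if_neg h4.ne]
        exact he2 x h4
      · rw [h4, hhd]
        simp only [if_true]
        refine finite_empty.subset ?_
        rintro z ⟨hz, hz'⟩
        exact hz' (le_of_eq (hC hz).2)
  · intro C hC hCi t ht e'
    refine (hg C hC hCi (e' p.d)).mono ?_
    rintro z ⟨hz, hz'⟩
    refine ⟨hz, fun x hx => ?_⟩
    have h1 : x = p.d := le_antisymm ((he x).1 (ht x hx).2) (ht x hx).1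
    rw [h1]
    show h' p.d z = e' p.d
    rw [hhd]
    exact hz'
  · intro A hA
    obtain ⟨n, _, h2⟩ := hA 0
    refine ⟨_, inter_subset_left, hpos _ _ h2, n, fun _ => n, hLS _, fun _ _ _ => le_rfl, ?_⟩
    intro x hx hx'
    have h1 : x = p.d := le_antisymm ((he x).1 hx') hx
    rw [h1]
    show ((A ∩ {z | g z = n}) \ {z | h' p.d z ≤ n}).Finite
    rw [hhd]
    refine finite_empty.subset ?_
    rintro z ⟨hz, hz'⟩
    exact hz' (le_of_eq hz.2)

end Pool.Agent.H99.FB
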