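import Pool.Agent.H99.FB.Main
import Pool.Graph.R_seed8.H282R3.FP.CH
import Pool.Graph.R_seed8.H282R3.FP.Orth
import Pool.Graph.R_seed8.H282R3.FP.Small

/-!
# The forcing notion forces a positive answer (MP_a58811_lc)
-/

set_option autoImplicit false

namespace Pool.Agent.H99.FB

open Set
open Pool.Agent.H282R3.FP (OmegaOneLike IsLim exists_isLim NoNewReals IsUltra IsInf InProd
  omegaOnePreserved_of noNewReals_of nx lt_nx le_of_lt_nx)
open Pool.Agent.Helper292.ForceCH (fnot fand fall fimp fiff fex fground meets IsFun Om SigmaClosed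
  OmegaOnePreserved CHHolds mem_fex mem_fimp Down down_fnot down_fand down_fall down_fex down_fimp
  down_meets meets_of_dense fimp_of fiff_of_decided meet_countable decide_countable exists_bound
  ub lt_ub ub_le)

/-! ### Sentences -/

section

variable {P : Type} [Preorder P]

/-- Tukey reducibility, for families of sets ordered by reverse inclusion: `φ A` says that `A` is
in the first family, and `ψ B` says that `B` is in the second family. There is a function `R` which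
maps the first family to the second family, such that for every `B` in the second family there is
`C` in the first family such that `C ⊆ A` whenever `A` is in the first family and `B ⊆ R A`. -/
def TukeyLe {X Y : Type} (φ : Set X → Set P) (ψ : Set Y → Set P) : Set P :=
  fex fun R : Set X → Set Y → Set P => fand (IsFun R)
    (fand (fall fun A => fall fun B => fimp (fand (φ A) (meets (R A B))) (ψ B))
      (fall fun B => fimp (ψ B) (fex fun C : Set X => fand (φ C)
        (fall fun A => fall fun B' =>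
          fimp (fand (φ A) (fand (meets (R A B')) (fground (B ⊆ B'))))
            (fground (C ⊆ A))))))

/-- The functions from `ℕ` to `ℕ` with the pointwise order are Tukey reducible to the family of
sets given by `ψ`, ordered by reverse inclusion: there is a function `R` from `ℕ → ℕ` to the
family such that for every `B` in the family there is `h` with `g ≤ h` whenever `B ⊆ R g`. -/
def BaireLe {Y : Type} (ψ : Set Y → Set P) : Set P :=
  fex fun R : (ℕ → ℕ) → Set Y → Set P => fand (IsFun R)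
    (fand (fall fun g => fall fun B => fimp (meets (R g B)) (ψ B))
      (fall fun B => fimp (ψ B) (fex fun h : ℕ → ℕ => fall fun g => fall fun B' =>
        fimp (fand (meets (R g B')) (fground (B ⊆ B'))) (fground (g ≤ h)))))

variable (P) in
/-- There is a nonprincipal ultrafilter `U` on `ℕ` such that `ω^ω ≤_T U ≤_T U · U`, and `U · U` is
not Tukey reducible to `U`; moreover `U` is not Tukey-top while `U · U` is Tukey-top. -/
def Positive : Set P :=
  fex fun U : Set ℕ → Set P => fand (IsUltra U)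
    (fand (BaireLe fun B => meets (U B))
      (fand (TukeyLe (fun B => meets (U B)) (InProd U U))
        (fand (fnot (TukeyLe (InProd U U) fun B => meets (U B)))
          (fand (fnot (H282R3.FP.IsTop fun B => meets (U B))) (H282R3.FP.IsTop (InProd U U))))))

end

/-! ### The ultrafilter -/

section

variable {W : Type} [LinearOrder W]

/-- the name of the ultrafilter -/
def UN (W : Type) [LinearOrder W] (B : Set ℕ) : Set (Cond W) := {q | B ∈ F q}

theorem mem_meets_UN {B : Set ℕ} {p : Cond W} :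
    p ∈ meets (UN W B) ↔ ∀ q ≤ p, ∃ r ≤ q, B ∈ F r := by
  constructor
  · intro h q hq
    obtain ⟨r, hr, s, hs, hrs⟩ := h q hq
    exact ⟨r, hr, F_mono hrs hs⟩
  · intro h q hq
    obtain ⟨r, hr, h'⟩ := h q hq
    exact ⟨r, hr, r, h', le_rfl⟩

theorem meets_UN_of_mem {B : Set ℕ} {p : Cond W} (h : B ∈ F p) : p ∈ meets (UN W B) :=
  mem_meets_UN.2 fun q hq => ⟨q, le_rfl, F_mono hq h⟩

theorem isUltra (p : Cond W) : p ∈ IsUltra (UN W) := by
  refine ⟨fun B B' => fimp_of fun q _ h => ?_, fun B B' => fimp_of fun q _ h => ?_,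
    fun B => ⟨fimp_of fun q _ h => ?_, fimp_of fun q _ h => ?_⟩, fun B => fimp_of fun q _ h => ?_⟩
  · refine mem_meets_UN.2 fun r hr => ?_
    obtain ⟨r', hr', h1⟩ := mem_meets_UN.1 h.1 r hr
    exact ⟨r', hr', F_up h1 h.2⟩
  · refine mem_meets_UN.2 fun r hr => ?_
    obtain ⟨r', hr', h1⟩ := mem_meets_UN.1 h.1 r hr
    obtain ⟨r'', hr'', h2⟩ := mem_meets_UN.1 h.2 r' (hr'.trans hr)
    exact ⟨r'', hr''.trans hr', F_inter (F_mono hr'' h1) h2⟩
  · intro r hr h'
    obtain ⟨r', hr', h1⟩ := mem_meets_UN.1 h r hr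
    obtain ⟨r'', hr'', h2⟩ := mem_meets_UN.1 h' r' hr'
    have h3 := F_infinite (F_inter (F_mono hr'' h1) h2)
    rw [compl_inter_self] at h3
    exact h3 finite_empty
  · refine mem_meets_UN.2 fun r hr => ?_
    obtain ⟨r', hr', h1 | h1⟩ := decide_set r B
    · exact absurd (meets_UN_of_mem h1) (h r' (hr'.trans hr))
    · exact ⟨r', hr', h1⟩
  · obtain ⟨r, _, h1⟩ := mem_meets_UN.1 h q le_rfl
    exact F_infinite h1

end

theorem hOm : OmegaOneLike Om := Pool.Agent.H282R3.FP.taskOm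

theorem sigmaClosed : SigmaClosed (Cond Om) := fun s hs => by
  obtain ⟨q, hq, _⟩ := exists_closed hOm s hs
  exact ⟨q, hq⟩

theorem nonempty_cond : Nonempty (Cond Om) := by
  have hwf := hOm.wf
  obtain ⟨w0, -⟩ := hOm.bdd ∅ countable_empty
  obtain ⟨d, -, hd⟩ := hwf.wf.has_min (univ : Set Om) ⟨w0, mem_univ _⟩
  have hd' : ∀ x : Om, ¬ x < d := fun x => hd x (mem_univ x)
  exact ⟨{ d := d
           s := fun _ => 0
           h := fun _ _ => 0
           Y := {∅, univ}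
           T := .leaf univ
           hYc := (countable_singleton _).insert _
           hYi := by
             rintro A (rfl | rfl) B (rfl | rfl) <;> simp
           hYu := Or.inr rfl
           hYe := Or.inl rfl
           hYh := fun x hx => absurd hx (hd' x)
           hal := Or.inr rfl
           hpos := by
             show (univ ∩ univ : Set ℕ).Infinite
             rw [inter_self]
             exact infinite_univ
           hnull := fun x hx => absurd hx (hd' x)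
           hcol := by
             intro A hA
             refine ⟨A, Subset.rfl, pos_infinite hA, fun _ => 0, ?_, fun x hx =>
               absurd hx (hd' x)⟩
             intro l hl hl'
             obtain ⟨⟨g, hg⟩, _⟩ := hl
             exact absurd (hg.trans_le hl') (hd' g) }⟩

/-- `d` can be made as large as we like -/
theorem exists_longer (a : Om) : ∀ p : Cond Om, ∃ q ≤ p, a < q.d := by
  have := hOm.wf
  induction a using WellFoundedLT.induction with
  | ind a ih =>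
    intro p
    rcases (Iio a).eq_empty_or_nonempty with he | hne
    · obtain ⟨q, hq, h1⟩ := exists_grow hOm p
      refine ⟨q, hq, ?_⟩
      by_contra hcon
      push Not at hcon
      have h2 : p.d ∈ Iio a := h1.trans_le hcon
      rw [he] at h2
      exact h2
    · obtain ⟨e, he⟩ := (hOm.countable a).exists_eq_range hne
      have hlt : ∀ n, e n < a := fun n => by
        have : e n ∈ Iio a := by rw [he]; exact ⟨n, rfl⟩
        exact this
      have step : ∀ (n : ℕ) (r : Cond Om), ∃ q ≤ r, e n < q.d := fun n r => ih (e n) (hlt n) r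
      choose f hf hf' using step
      let s : ℕ → Cond Om := fun n => Nat.rec p (fun k r => f k r) n
      have hs : ∀ n, s (n + 1) ≤ s n := fun n => hf n (s n)
      obtain ⟨q, hq⟩ := sigmaClosed s hs
      obtain ⟨r, hr, h1⟩ := exists_grow hOm q
      refine ⟨r, hr.trans (hq 0), lt_of_le_of_lt ?_ h1⟩
      by_contra hcon
      push Not at hcon
      have h2 : q.d ∈ Iio a := hcon
      rw [he] at h2
      obtain ⟨n, hn⟩ := h2
      have h3 : e n < (s (n + 1)).d := hf' n (s n)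
      have h4 : (s (n + 1)).d ≤ q.d := (hq (n + 1)).1
      exact absurd (h3.trans_le h4) (by rw [hn]; exact lt_irrefl _)

/-! ### The continuum hypothesis -/

/-- the name of the `a`-th real -/
def code (a : Om) (n : ℕ) : Set (Cond Om) :=
  {q | nx^[n + 1] a ≤ q.d ∧ q.s (nx^[n + 1] a) = 1}

theorem chHolds (p : Cond Om) : p ∈ CHHolds (Cond Om) := by
  classical
  refine mem_fex.2 fun q _ => ⟨q, le_rfl, code, fun x => mem_fex.2 fun r _ => ?_⟩
  obtain ⟨t, ht, h1⟩ := decide_countable sigmaClosed (fun n : ℕ => meets (x n))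
    (fun _ => down_meets _) r
  have step : ∀ (n : ℕ) (u : Cond Om), ∃ v ≤ u, v.d = nx u.d ∧
      v.s v.d = if t ∈ meets (x n) then 1 else 0 := fun n u => by
    obtain ⟨v, hv, h2, h3⟩ := grow u (nx u.d)
      (fun y => ⟨fun hy => le_of_lt_nx hy, fun hy => hy.trans_lt (lt_nx _)⟩)
      (if t ∈ meets (x n) then 1 else 0)
    exact ⟨v, hv, h2, by rw [h2]; exact h3⟩
  choose f hf hf1 hf2 using step
  let s : ℕ → Cond Om := fun n => Nat.rec t (fun k u => f k u) n
  have hs : ∀ n, s (n + 1) ≤ s n := fun n => hf n (s n)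
  obtain ⟨v, hv⟩ := sigmaClosed s hs
  have hd : ∀ n, (s n).d = nx^[n] t.d := by
    intro n
    induction n with
    | zero => rfl
    | succ n ih =>
      rw [Function.iterate_succ_apply', ← ih]
      exact hf1 n (s n)
  have hv1 : ∀ n, nx^[n + 1] t.d ≤ v.d := fun n => by
    rw [← hd]
    exact (hv (n + 1)).1
  have hv2 : ∀ n, v.s (nx^[n + 1] t.d) = if t ∈ meets (x n) then 1 else 0 := by
    intro n
    have h2 := (hv (n + 1)).2.1 (nx^[n + 1] t.d) (hd (n + 1)).symm.le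
    rw [h2, ← hf2 n (s n), ← hd (n + 1)]
  refine ⟨v, (hv 0).trans ht, t.d, fun n => fiff_of_decided (down_meets _) (down_meets _) ?_⟩
  rcases h1 n with h8 | h8
  · refine Or.inl ⟨down_meets _ _ h8 _ (hv 0), fun w hw => ⟨w, le_rfl, v, ⟨hv1 n, ?_⟩, hw⟩⟩
    rw [hv2, if_pos h8]
  · refine Or.inr ⟨down_fnot _ _ h8 _ (hv 0), fun w hw hw' => ?_⟩
    obtain ⟨y, hy, z, ⟨hz1, hz2⟩, hyz⟩ := hw' w le_rfl
    have h3 : y.s (nx^[n + 1] t.d) = v.s (nx^[n + 1] t.d) :=
      (hy.trans hw).2.1 _ (hv1 n)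
    have h4 : y.s (nx^[n + 1] t.d) = z.s (nx^[n + 1] t.d) := hyz.2.1 _ hz1
    rw [hv2, h4, hz2, if_neg (h8 t le_rfl)] at h3
    exact absurd h3 (by omega)

/-! ### Non-Tukey-topness -/

/-- the `Name` obtained from a name of a function into the ultrafilter, below `r₀` -/
theorem exists_name {A : Om → Set ℕ → Set (Cond Om)} {r₀ : Cond Om}
    (hA : r₀ ∈ IsFun A) (hU : ∀ a B, r₀ ∈ fimp (meets (A a B)) (meets (UN Om B))) :
    ∃ τ : Name Om, ∀ q ≤ r₀, ∀ a B, τ.v q a B → q ∈ meets (A a B) := by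
  classical
  refine ⟨⟨fun p a B => (p ≤ r₀ ∧ p ∈ meets (A a B)) ∨ ((∀ q ≤ p, ¬ q ≤ r₀) ∧ B = Set.univ),
    ?_, ?_, ?_, ?_⟩, ?_⟩
  · rintro p q a B hqp (⟨h1, h2⟩ | ⟨h1, h2⟩)
    · exact Or.inl ⟨hqp.trans h1, down_meets _ _ h2 _ hqp⟩
    · exact Or.inr ⟨fun r hr => h1 r (hr.trans hqp), h2⟩
  · rintro p a B B' (⟨h1, h2⟩ | ⟨h1, h2⟩) (⟨h3, h4⟩ | ⟨h3, h4⟩)
    · obtain ⟨_, _, h5⟩ := mem_fimp.1 (hA.2 a B B') p h1 ⟨h2, h4⟩
      exact h5
    · exact absurd h1 (h3 p le_rfl)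
    · exact absurd h3 (h1 p le_rfl)
    · rw [h2, h4]
  · intro p a
    by_cases h : ∃ q ≤ p, q ≤ r₀
    · obtain ⟨q, hq, hq'⟩ := h
      obtain ⟨r, hr, B, h1⟩ := mem_fex.1 (hA.1 a) q hq'
      exact ⟨r, hr.trans hq, B, Or.inl ⟨hr.trans hq', h1⟩⟩
    · push Not at h
      exact ⟨p, le_rfl, Set.univ, Or.inr ⟨h, rfl⟩⟩
  · rintro p a B (⟨h1, h2⟩ | ⟨_, rfl⟩)
    · obtain ⟨q, hq, h3⟩ := mem_fimp.1 (hU a B) p h1 h2
      obtain ⟨r, hr, h4⟩ := mem_meets_UN.1 h3 q le_rfl
      exact ⟨r, hr.trans hq, h4⟩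
    · exact ⟨p, le_rfl, F_univ p⟩
  · rintro q hq a B (⟨_, h⟩ | ⟨h, _⟩)
    · exact h
    · exact absurd hq (h q le_rfl)

/-- below `r₀`, infinitely many values of a function into the ultrafilter are decided and their
intersection is put into the ultrafilter -/
theorem exists_values {A : Om → Set ℕ → Set (Cond Om)} {r₀ : Cond Om}
    (hA : r₀ ∈ IsFun A) (hU : ∀ a B, r₀ ∈ fimp (meets (A a B)) (meets (UN Om B))) :
    ∃ r ≤ r₀, ∃ I : Set Om, I.Infinite ∧ ∃ B : Om → Set ℕ,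
      (∀ β ∈ I, r ∈ meets (A β (B β))) ∧ (⋂ β ∈ I, B β) ∈ F r := by
  obtain ⟨τ, hτ⟩ := exists_name hA hU
  obtain ⟨r, hr, I, hI, B, hB, hBF⟩ := main hOm τ r₀
  exact ⟨r, hr, I, hI, B, fun β hβ => hτ r hr β _ (hB β hβ), hBF⟩

theorem not_isTop (p : Cond Om) : p ∈ fnot (H282R3.FP.IsTop fun B => meets (UN Om B)) := by
  intro q _ hq
  obtain ⟨r₀, _, A, hA, hU, hT⟩ := mem_fex.1 hq q le_rfl
  obtain ⟨r, hr, I, hI, B, hB, hBF⟩ := exists_values hA hU
  have hinf : r ∈ IsInf (fun a : Om => ({_s | a ∈ I} : Set (Cond Om))) := by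
    intro G
    refine mem_fex.2 fun s _ => ?_
    obtain ⟨a, haI, haG⟩ := hI.exists_notMem_finset G
    exact ⟨s, le_rfl, a, haG, fun t _ => ⟨t, le_rfl, t, haI, le_rfl⟩⟩
  obtain ⟨s, hs, h1⟩ := mem_fimp.1 (hT _) r hr hinf
  refine h1 s le_rfl (mem_fex.2 fun t ht => ⟨t, le_rfl, ⋂ β ∈ I, B β,
    meets_UN_of_mem (F_mono (ht.trans hs) hBF), fun a B' => fimp_of fun v hv h2 => ?_⟩)
  obtain ⟨w, hw, _, haI, _⟩ := h2.1 v le_rfl
  have haI' : a ∈ I := haI
  have h3 : w ∈ meets (A a (B a)) :=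
    down_meets _ _ (hB a haI') _ (hw.trans (hv.trans (ht.trans hs)))
  have h4 : w ∈ meets (A a B') := down_meets _ _ h2.2 _ hw
  obtain ⟨_, _, h5⟩ := mem_fimp.1 (hA.2 a (B a) B') w
    (hw.trans (hv.trans (ht.trans (hs.trans hr)))) ⟨h3, h4⟩
  have h5' : B a = B' := h5
  change (⋂ β ∈ I, B β) ⊆ B'
  rw [← h5']
  exact biInter_subset_of_mem haI'

/-! ### The Fubini square -/

/-- the sets which witness that the Fubini square is Tukey-top -/
def sq (q : Cond Om) (a : Om) : Set (ℕ × ℕ) := {x | x.1 ≤ q.h a x.2}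

theorem sq_eq {q p : Cond Om} (h : q ≤ p) {a : Om} (ha : a < p.d) : sq q a = sq p a := by
  unfold sq
  rw [h.2.2.1 a ha]

/-- the name of the sequence of these sets -/
def RN (a : Om) (X : Set (ℕ × ℕ)) : Set (Cond Om) := {q | a < q.d ∧ X = sq q a}

theorem mem_meets_RN {p : Cond Om} {a : Om} (ha : a < p.d) {X : Set (ℕ × ℕ)}
    (h : p ∈ meets (RN a X)) : X = sq p a := by
  obtain ⟨r, hr, s, hs, hrs⟩ := h p le_rfl
  rw [← sq_eq hr ha, sq_eq hrs hs.1]
  exact hs.2

theorem meets_RN {p : Cond Om} {a : Om} (ha : a < p.d) : p ∈ meets (RN a (sq p a)) :=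
  fun q hq => ⟨q, le_rfl, p, ⟨ha, rfl⟩, hq⟩

theorem sq_mem {p : Cond Om} {a : Om} (ha : a < p.d) :
    p ∈ InProd (UN Om) (UN Om) (sq p a) := by
  refine mem_fex.2 fun q hq => ⟨q, le_rfl, univ, meets_UN_of_mem (F_univ q), fun n => ?_⟩
  refine fiff_of_decided (fun _ h _ _ => h) (down_meets _) (Or.inl ⟨trivial, ?_⟩)
  exact meets_UN_of_mem (F_mono hq (ge_mem_F ha n))

/-- no member of the Fubini square is contained in infinitely many of the sets `sq p a` -/
theorem no_common {p : Cond Om} {I : Set Om} (hI : I.Infinite) (hId : I ⊆ Iio p.d)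
    {X : Set (ℕ × ℕ)} (hX : p ∈ InProd (UN Om) (UN Om) X) (hXI : ∀ a ∈ I, X ⊆ sq p a) :
    False := by
  have := hOm.wf
  obtain ⟨l, hl1, hl2⟩ := exists_isLim hI hId
  have hlmt : Lmt l := ⟨hl1, fun g hg => by
    obtain ⟨x, _, h1, h2⟩ := hl2 g hg
    exact ⟨x, h1, h2⟩⟩
  have hld : l ≤ p.d := by
    by_contra hcon
    push Not at hcon
    obtain ⟨x, hx, h1, _⟩ := hl2 _ hcon
    exact absurd (mem_Iio.1 (hId hx)) h1.not_gt
  obtain ⟨v, hv, Z, hZ, hZ'⟩ := mem_fex.1 hX p le_rfl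
  obtain ⟨v1, hv1, h1⟩ := mem_meets_UN.1 hZ v le_rfl
  obtain ⟨n, hnZ, hn⟩ := (F_infinite h1).exists_gt (p.s l)
  obtain ⟨w1, hw1, h2⟩ := mem_fimp.1 (hZ' n).1 v1 hv1 hnZ
  obtain ⟨w, hw, h3⟩ := mem_meets_UN.1 h2 w1 le_rfl
  have hwp : w ≤ p := hw.trans (hw1.trans (hv1.trans hv))
  obtain ⟨C, hC, hCi, e, he1, he2⟩ := w.hcol _ (pos_of_F h3)
  obtain ⟨g, hg, h4⟩ := he1 l hlmt (hld.trans hwp.1)
  obtain ⟨a, ha, ha1, ha2⟩ := hl2 g hg
  have h5 : e a ≤ p.s l := by
    rw [← hwp.2.1 l hld]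
    exact h4 a ha1 ha2
  have had : a < p.d := hId ha
  refine hCi ((he2 a (had.trans_le hwp.1)).subset ?_)
  intro m hm
  refine ⟨hm, fun h6 => ?_⟩
  have h7 : n ≤ p.h a m := hXI a ha (hC hm)
  rw [← hwp.2.2.1 a had] at h7
  have h8 : w.h a m ≤ e a := h6
  omega

theorem isTop_prod (p : Cond Om) : p ∈ H282R3.FP.IsTop (InProd (UN Om) (UN Om)) := by
  refine mem_fex.2 fun p' _ => ⟨p', le_rfl, RN, ⟨?_, ?_⟩, ?_, ?_⟩
  · intro a
    refine mem_fex.2 fun q _ => ?_
    obtain ⟨r, hr, h1⟩ := exists_longer a q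
    exact ⟨r, hr, sq r a, meets_RN h1⟩
  · intro a X X'
    refine mem_fimp.2 fun q _ h => ?_
    obtain ⟨r, hr, h1⟩ := exists_longer a q
    refine ⟨r, hr, ?_⟩
    change X = X'
    rw [mem_meets_RN h1 (down_meets _ _ h.1 _ hr), mem_meets_RN h1 (down_meets _ _ h.2 _ hr)]
  · intro a X
    refine mem_fimp.2 fun q _ h => ?_
    obtain ⟨r, hr, h1⟩ := exists_longer a q
    refine ⟨r, hr, ?_⟩
    rw [mem_meets_RN h1 (down_meets _ _ h _ hr)]
    exact sq_mem h1
  · intro I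
    refine fimp_of fun q _ hI => ?_
    intro q' hq' hq''
    obtain ⟨r, hr, X, hX, hX'⟩ := mem_fex.1 hq'' q' le_rfl
    -- a countable infinite set of elements of `I`
    have step : ∀ (G : Finset Om) (s : Cond Om), s ≤ r → ∃ t ≤ s, ∃ a ∉ G,
        t ∈ meets (I a) ∧ a < t.d := by
      intro G s hs
      obtain ⟨t, ht, a, ha, h1⟩ := mem_fex.1 (hI G) s (hs.trans (hr.trans hq'))
      obtain ⟨t', ht', h2⟩ := exists_longer a t
      exact ⟨t', ht'.trans ht, a, ha, down_meets _ _ h1 _ ht', h2⟩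
    choose f hf g hg hg' hg'' using step
    let s : ℕ → Finset Om × {t : Cond Om // t ≤ r} := fun n => Nat.rec (∅, ⟨r, le_rfl⟩)
      (fun _ x => (insert (g x.1 x.2.1 x.2.2) x.1,
        ⟨f x.1 x.2.1 x.2.2, (hf x.1 x.2.1 x.2.2).trans x.2.2⟩)) n
    let a : ℕ → Om := fun n => g (s n).1 (s n).2.1 (s n).2.2
    have hs : ∀ n, (s (n + 1)).2.1 ≤ (s n).2.1 := fun n => hf _ _ (s n).2.2
    have hs1 : ∀ n, (s (n + 1)).1 = insert (a n) (s n).1 := fun n => rfl
    have hmono : ∀ m n, m ≤ n → (s m).1 ⊆ (s n).1 := by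
      intro m n h
      induction h with
      | refl => exact Finset.Subset.refl _
      | step h ih => exact ih.trans (by rw [hs1]; exact Finset.subset_insert _ _)
    have hainj : Function.Injective a := by
      have h1 : ∀ m n, m < n → a m ≠ a n := by
        intro m n hmn h
        have h2 : a m ∈ (s n).1 := hmono (m + 1) n hmn (by
          rw [hs1]; exact Finset.mem_insert_self _ _)
        rw [h] at h2
        exact hg _ _ (s n).2.2 h2
      intro m n h
      rcases lt_trichotomy m n with h2 | h2 | h2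
      · exact absurd h (h1 m n h2)
      · exact h2
      · exact absurd h.symm (h1 n m h2)
    obtain ⟨t, ht⟩ := sigmaClosed (fun n => (s n).2.1) hs
    have htr : t ≤ r := ht 0
    have hat : ∀ n, a n < t.d := fun n =>
      (hg'' _ _ (s n).2.2).trans_le (ht (n + 1)).1
    have haI : ∀ n, t ∈ meets (I (a n)) := fun n =>
      down_meets _ _ (hg' _ _ (s n).2.2) _ (ht (n + 1))
    have hXa : ∀ n, X ⊆ sq t (a n) := by
      intro n
      obtain ⟨_, _, h1⟩ := mem_fimp.1 (hX' (a n) (sq t (a n))) t htr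
        ⟨haI n, meets_RN (hat n)⟩
      exact h1
    refine no_common (p := t) (infinite_range_of_injective hainj) ?_
      (down_fex _ _ hX _ htr) ?_
    · rintro _ ⟨n, rfl⟩
      exact hat n
    · rintro _ ⟨n, rfl⟩
      exact hXa n

/-! ### The Tukey reductions -/

theorem tukeyLe_sq (p : Cond Om) :
    p ∈ TukeyLe (fun B => meets (UN Om B)) (InProd (UN Om) (UN Om)) := by
  have hR : ∀ {q : Cond Om} {A : Set ℕ} {B : Set (ℕ × ℕ)},
      q ∈ meets ({_r | B = {x : ℕ × ℕ | x.2 ∈ A}} : Set (Cond Om)) →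
        B = {x : ℕ × ℕ | x.2 ∈ A} := by
    intro q A B h
    obtain ⟨_, _, _, h1, _⟩ := h q le_rfl
    exact h1
  refine mem_fex.2 fun q _ => ⟨q, le_rfl, fun A B => {_r | B = {x | x.2 ∈ A}}, ⟨fun A => ?_,
    fun A B B' => ?_⟩, fun A B => ?_, fun B => ?_⟩
  · exact mem_fex.2 fun r _ => ⟨r, le_rfl, _, fun t _ => ⟨t, le_rfl, t, rfl, le_rfl⟩⟩
  · refine fimp_of fun r _ h => ?_
    change B = B'
    rw [hR h.1, hR h.2]
  · refine fimp_of fun r _ h => ?_
    rw [hR h.2]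
    refine mem_fex.2 fun t ht => ⟨t, le_rfl, univ, meets_UN_of_mem (F_univ t), fun n => ?_⟩
    refine fiff_of_decided (fun _ h _ _ => h) (down_meets _) (Or.inl ⟨trivial, ?_⟩)
    exact down_meets _ _ h.1 _ ht
  · refine fimp_of fun r _ h => ?_
    refine mem_fex.2 fun r' hr' => ?_
    obtain ⟨v, hv, Z, hZ, hZ'⟩ := mem_fex.1 h r' hr'
    obtain ⟨v1, hv1, h1⟩ := mem_meets_UN.1 hZ v le_rfl
    obtain ⟨n, hnZ⟩ := (F_infinite h1).nonempty
    obtain ⟨w1, hw1, h2⟩ := mem_fimp.1 (hZ' n).1 v1 hv1 hnZ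
    refine ⟨w1, hw1.trans (hv1.trans hv), {m | (n, m) ∈ B}, h2, fun A B' =>
      fimp_of fun t _ h3 => ?_⟩
    have h4 : B ⊆ B' := h3.2.2
    rw [hR h3.2.1] at h4
    exact fun m hm => h4 hm

theorem baireLe (p : Cond Om) : p ∈ BaireLe (fun B => meets (UN Om B)) := by
  classical
  -- a maximal antichain deciding a thin set for each function
  have hD : ∀ g : ℕ → ℕ, ∃ 𝒜 : Set (Cond Om), (∀ q ∈ 𝒜, ∃ B ∈ F q,
      ∀ n, (B ∩ {z | z < g n}).ncard ≤ n) ∧
      (∀ q ∈ 𝒜, ∀ q' ∈ 𝒜, (∃ r, r ≤ q ∧ r ≤ q') → q = q') ∧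
      ∀ q, ∃ r ≤ q, ∃ s ∈ 𝒜, r ≤ s := by
    intro g
    let D : Set (Cond Om) := {q | ∃ B ∈ F q, ∀ n, (B ∩ {z | z < g n}).ncard ≤ n}
    obtain ⟨𝒜, h𝒜⟩ := zorn_subset {𝒜 : Set (Cond Om) | 𝒜 ⊆ D ∧
        ∀ q ∈ 𝒜, ∀ q' ∈ 𝒜, (∃ r, r ≤ q ∧ r ≤ q') → q = q'} (by
      intro c hc hchain
      refine ⟨⋃₀ c, ⟨sUnion_subset fun 𝒜 h => (hc h).1, ?_⟩, fun 𝒜 h => subset_sUnion_of_mem h⟩
      rintro q ⟨𝒜, h1, h2⟩ q' ⟨𝒜', h1', h2'⟩ h3
      rcases hchain.total h1 h1' with h4 | h4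
      · exact (hc h1').2 q (h4 h2) q' h2' h3
      · exact (hc h1).2 q h2 q' (h4 h2') h3)
    refine ⟨𝒜, fun q hq => h𝒜.prop.1 hq, h𝒜.prop.2, fun q => ?_⟩
    by_contra hcon
    push Not at hcon
    obtain ⟨r, hr, hrD⟩ := rapid q g
    have h1 : r ∈ 𝒜 := by
      refine h𝒜.le_of_ge (y := insert r 𝒜) ⟨insert_subset hrD h𝒜.prop.1, ?_⟩
        (subset_insert _ _) (mem_insert _ _)
      have h2 : ∀ s ∈ 𝒜, ¬ ∃ t, t ≤ r ∧ t ≤ s := fun s hs ⟨t, ht, ht'⟩ =>
        hcon t (ht.trans hr) s hs ht'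
      rintro s (rfl | hs) s' (rfl | hs') h3
      · rfl
      · exact absurd h3 (h2 s' hs')
      · obtain ⟨t, ht, ht'⟩ := h3
        exact absurd ⟨t, ht', ht⟩ (h2 s hs)
      · exact h𝒜.prop.2 s hs s' hs' h3
    exact hcon r hr r h1 le_rfl
  choose 𝒜 h1 h2 h3 using hD
  choose! B hB1 hB2 using h1
  let R : (ℕ → ℕ) → Set ℕ → Set (Cond Om) := fun g X => {q | q ∈ 𝒜 g ∧ X = B g q}
  -- the values of the function
  have hval : ∀ g (q : Cond Om), ∃ r ≤ q, ∃ s ∈ 𝒜 g, r ≤ s ∧ r ∈ meets (R g (B g s)) := by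
    intro g q
    obtain ⟨r, hr, s, hs, hrs⟩ := h3 g q
    exact ⟨r, hr, s, hs, hrs, fun t ht => ⟨t, le_rfl, s, ⟨hs, rfl⟩, ht.trans hrs⟩⟩
  have huniq : ∀ {g} {X : Set ℕ} {r s : Cond Om}, s ∈ 𝒜 g → r ≤ s → r ∈ meets (R g X) →
      X = B g s := by
    intro g X r s hs hrs h
    obtain ⟨t, ht, s', ⟨hs', rfl⟩, hts'⟩ := h r le_rfl
    rw [h2 g s hs s' hs' ⟨t, ht.trans hrs, hts'⟩]
  have hmem : ∀ {g} {X : Set ℕ} {r : Cond Om}, r ∈ meets (R g X) →
      (∀ n, (X ∩ {z | z < g n}).ncard ≤ n) ∧ r ∈ meets (UN Om X) := by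
    intro g X r h
    constructor
    · obtain ⟨_, _, s, ⟨hs, rfl⟩, _⟩ := h r le_rfl
      exact hB2 g s hs
    · refine mem_meets_UN.2 fun q hq => ?_
      obtain ⟨t, ht, s, ⟨hs, rfl⟩, hts⟩ := h q hq
      exact ⟨t, ht, F_mono hts (hB1 g s hs)⟩
  refine mem_fex.2 fun q _ => ⟨q, le_rfl, R, ⟨fun g => ?_, fun g X X' => ?_⟩, fun g X => ?_,
    fun X => ?_⟩
  · refine mem_fex.2 fun r _ => ?_
    obtain ⟨t, ht, s, _, _, h4⟩ := hval g r
    exact ⟨t, ht, _, h4⟩
  · refine mem_fimp.2 fun r _ h => ?_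
    obtain ⟨t, ht, s, hs, hts, _⟩ := hval g r
    refine ⟨t, ht, ?_⟩
    change X = X'
    rw [huniq hs hts (down_meets _ _ h.1 _ ht), huniq hs hts (down_meets _ _ h.2 _ ht)]
  · exact fimp_of fun r _ h => (hmem h).2
  · refine fimp_of fun r _ h => ?_
    obtain ⟨r', _, hX⟩ := mem_meets_UN.1 h r le_rfl
    have hXi : X.Infinite := F_infinite hX
    refine mem_fex.2 fun t _ => ⟨t, le_rfl, fun n => Nat.nth (fun x => x ∈ X) n, fun g X' =>
      fimp_of fun t' _ h4 => ?_⟩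
    change g ≤ _
    have h5 := (hmem h4.1).1
    have h6 : X ⊆ X' := h4.2
    intro n
    by_contra hcon
    push Not at hcon
    have h7 : ((Finset.range (n + 1)).image (Nat.nth (fun x => x ∈ X)) : Set ℕ) ⊆
        X' ∩ {z | z < g n} := by
      intro z hz
      simp only [Finset.coe_image, Finset.coe_range, mem_image, mem_Iio] at hz
      obtain ⟨i, hi, rfl⟩ := hz
      refine ⟨h6 (Nat.nth_mem_of_infinite hXi i), ?_⟩
      have h8 : Nat.nth (fun x => x ∈ X) i ≤ Nat.nth (fun x => x ∈ X) n :=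
        (Nat.nth_strictMono hXi).monotone (by omega)
      exact lt_of_le_of_lt h8 hcon
    have h8 := Set.ncard_le_ncard h7 ((finite_lt_nat (g n)).subset inter_subset_right)
    have hinj : Function.Injective (Nat.nth (fun x => x ∈ X)) :=
      (Nat.nth_strictMono (p := fun x => x ∈ X) hXi).injective
    rw [Set.ncard_coe_finset, Finset.card_image_of_injective _ hinj, Finset.card_range] at h8
    have := h5 n
    omega

theorem not_tukeyLe (p : Cond Om) :
    p ∈ fnot (TukeyLe (InProd (UN Om) (UN Om)) fun B => meets (UN Om B)) := by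
  intro q _ hq
  obtain ⟨r₀, _, R, hR, hRU, hT⟩ := mem_fex.1 hq q le_rfl
  let A : Om → Set ℕ → Set (Cond Om) := fun a B => {s | a < s.d ∧ s ∈ meets (R (sq s a) B)}
  have hA : ∀ {s : Cond Om} {a : Om} {B : Set ℕ}, a < s.d → s ∈ meets (A a B) →
      s ∈ meets (R (sq s a) B) := by
    intro s a B has h
    refine meets_of_dense fun t ht => ?_
    obtain ⟨t', ht', u, ⟨hu1, hu2⟩, htu⟩ := h t ht
    refine ⟨t', ht', ?_⟩
    rw [← sq_eq (ht'.trans ht) has, sq_eq htu hu1]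
    exact down_meets _ _ hu2 _ htu
  have hA' : ∀ {s : Cond Om} {a : Om} {B : Set ℕ}, a < s.d → s ∈ meets (R (sq s a) B) →
      s ∈ meets (A a B) := fun {s a B} has h t ht => ⟨t, le_rfl, s, ⟨has, h⟩, ht⟩
  have hfun : r₀ ∈ IsFun A := by
    refine ⟨fun a => mem_fex.2 fun s hs => ?_, fun a B B' => mem_fimp.2 fun s hs h => ?_⟩
    · obtain ⟨t, ht, h1⟩ := exists_longer a s
      obtain ⟨t', ht', B, h2⟩ := mem_fex.1 (hR.1 (sq t a)) t (ht.trans hs)
      refine ⟨t', ht'.trans ht, B, hA' (h1.trans_le ht'.1) ?_⟩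
      rw [sq_eq ht' h1]
      exact h2
    · obtain ⟨t, ht, h1⟩ := exists_longer a s
      have h2 := hA h1 (down_meets _ _ h.1 _ ht)
      have h3 := hA h1 (down_meets _ _ h.2 _ ht)
      obtain ⟨t', ht', h4⟩ := mem_fimp.1 (hR.2 (sq t a) B B') t (ht.trans hs) ⟨h2, h3⟩
      exact ⟨t', ht'.trans ht, h4⟩
  have hU : ∀ a B, r₀ ∈ fimp (meets (A a B)) (meets (UN Om B)) := by
    intro a B
    refine mem_fimp.2 fun s hs h => ?_
    obtain ⟨t, ht, h1⟩ := exists_longer a s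
    have h2 := hA h1 (down_meets _ _ h _ ht)
    obtain ⟨t', ht', h3⟩ := mem_fimp.1 (hRU (sq t a) B) t (ht.trans hs) ⟨sq_mem h1, h2⟩
    exact ⟨t', ht'.trans ht, h3⟩
  obtain ⟨r, hr, I, hI, B, hB, hBF⟩ := exists_values hfun hU
  -- infinitely many of the indices, below the length of a condition
  let e := hI.natEmbedding
  obtain ⟨w, hw⟩ := hOm.bdd (range fun n => (e n).1) (countable_range _)
  obtain ⟨r1, hr1, hw1⟩ := exists_longer w r
  obtain ⟨r2, hr2, h4⟩ := mem_fimp.1 (hT (⋂ β ∈ I, B β)) r1 (hr1.trans hr)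
    (meets_UN_of_mem (F_mono hr1 hBF))
  obtain ⟨r3, hr3, C, hC1, hC2⟩ := mem_fex.1 h4 r2 le_rfl
  have hr31 : r3 ≤ r1 := hr3.trans hr2
  have hlt : ∀ n, (e n).1 < r3.d := fun n =>
    ((hw _ ⟨n, rfl⟩).trans hw1).trans_le hr31.1
  refine no_common (p := r3) (I := range fun n => (e n).1)
    (infinite_range_of_injective (Subtype.val_injective.comp e.injective)) ?_ hC1 ?_
  · rintro _ ⟨n, rfl⟩
    exact hlt n
  · rintro _ ⟨n, rfl⟩
    have h5 : r3 ∈ meets (R (sq r3 (e n).1) (B (e n).1)) :=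
      hA (hlt n) (down_meets _ _ (hB _ (e n).2) _ (hr31.trans hr1))
    obtain ⟨_, _, h6⟩ := mem_fimp.1 (hC2 (sq r3 (e n).1) (B (e n).1)) r3 le_rfl
      ⟨sq_mem (hlt n), h5, biInter_subset_of_mem (e n).2⟩
    exact h6

theorem positive (p : Cond Om) : p ∈ Positive (Cond Om) :=
  mem_fex.2 fun q _ => ⟨q, le_rfl, UN Om, isUltra q, baireLe q, tukeyLe_sq q, not_tukeyLe q,
    not_isTop q, isTop_prod q⟩

theorem final :
    ∃ (P : Type) (_ : Preorder P), Nonempty P ∧ ∀ p : P,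
      p ∈ OmegaOnePreserved P ∧ p ∈ CHHolds P ∧ p ∈ NoNewReals P ∧ p ∈ Positive P :=
  ⟨Cond Om, inferInstance, nonempty_cond, fun p => ⟨omegaOnePreserved_of sigmaClosed p,
    chHolds p, noNewReals_of sigmaClosed p, positive p⟩⟩

end Pool.Agent.H99.FB
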