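import Pool.Agent.H99.FB.Step
import Pool.Agent.H99.FB.Comb

/-!
# The fusion
-/

set_option autoImplicit false

namespace Pool.Agent.H99.FB

open Set
open Pool.Agent.H282R3.FP (OmegaOneLike)

variable {W : Type} [LinearOrder W]

/-- the tree at an address, given the sequence of the roots -/
def SA (R : ℕ → Tr) : List ℕ → Tr
  | [] => .leaf ∅
  | i :: t => (R i).sub t

theorem sub_nil (T : Tr) : T.sub [] = T := by cases T <;> rfl

theorem SA_append {R : ℕ → Tr} {u : List ℕ} {f : ℕ → Tr} (h : SA R u = .node f) (j : ℕ) :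
    SA R (u ++ [j]) = f j := by
  cases u with
  | nil => simp [SA] at h
  | cons i t => exact sub_append_node h j

theorem Al_rel {X : List ℕ → Set ℕ} {Y : Set (Set ℕ)} (hX : ∀ u, X u ∈ Y) (T : Tr) (u : List ℕ) :
    (T.rel X u).Al Y := by
  induction T generalizing u with
  | leaf C => exact hX u
  | node f ih => exact fun n => ih n _

/-- the states of the fusion -/
structure FSt (W : Type) [LinearOrder W] where
  q : Cond W
  act : Finset (List ℕ)
  R : ℕ → Tr
  A : List ℕ → Set ℕ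
  used : Finset W
  z : ℕ

/-- the invariants of the states -/
def FInv (n : ℕ) (σ : FSt W) : Prop :=
  (∀ u ∈ σ.act, σ.A u ∈ σ.q.Y ∧ (SA σ.R u).Al σ.q.Y ∧ (SA σ.R u).pos (σ.A u)) ∧
    ∀ u ∈ σ.act, ∃ i t, u = i :: t ∧ i < n

/-- one step of the fusion -/
structure FRel (τ : Name W) (k : ℕ) (e : ℕ → List ℕ)
    (req : ℕ → Finset (List ℕ) × Finset ℕ) (n : ℕ) (σ σ' : FSt W) : Prop where
  le : σ'.q ≤ σ.q
  lt : σ.q.d < σ'.q.d
  root : σ'.R n = σ.q.T
  roots : ∀ i, i ≠ n → σ'.R i = σ.R i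
  act : σ.act ⊆ σ'.act
  newroot : [n] ∈ σ'.act
  anti : ∀ u ∈ σ.act, σ'.A u ⊆ σ.A u
  new : ∀ u ∈ σ'.act, u ∈ σ.act ∨ u = [n] ∨ ∃ v ∈ σ.act, ∃ j, u = v ++ [j] ∧ σ'.A u ⊆ σ.A v
  node : ∀ f, e n ∈ σ.act → SA σ.R (e n) = .node f → ∃ j ≥ n, e n ++ [j] ∈ σ'.act
  leaf : ∀ C, e n ∈ σ.act → SA σ.R (e n) = .leaf C → n ≤ σ'.z ∧ σ'.z ∈ C ∧ σ'.z ∈ σ.A (e n)
  bdd : Bdd σ'.q.s σ'.q.h σ.q.d σ'.q.d k (⋃ u ∈ σ'.act, σ'.A u)
  used : σ.used ⊆ σ'.used
  req : (req n).1 ⊆ σ.act →
    ¬ (Gd τ σ.q k (req n).1 (SA σ.R) σ.A (req n).2).Countable →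
    ∃ β ∉ σ.used, β ∈ σ'.used ∧ ∃ B, τ.v σ'.q β B ∧ B ∈ F σ'.q ∧ (↑(req n).2 : Set ℕ) ⊆ B ∧
      ∀ u ∈ (req n).1, σ'.A u ⊆ B

theorem Gd_congr {τ : Name W} {q : Cond W} {k : ℕ} {a : Finset (List ℕ)} {S S' : List ℕ → Tr}
    {A A' : List ℕ → Set ℕ} {G : Finset ℕ} (hS : ∀ u ∈ a, S' u = S u)
    (hA : ∀ u ∈ a, A' u = A u) : Gd τ q k a S' A' G = Gd τ q k a S A G := by
  ext β
  simp only [Gd, mem_ofPred_eq]
  refine exists_congr fun r => and_congr_right fun _ => exists_congr fun B =>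
    and_congr_right fun _ => and_congr_right fun _ => forall₂_congr fun u hu => ?_
  rw [hS u hu, hA u hu]

theorem fstep (hW : OmegaOneLike W) (τ : Name W) (k : ℕ) (e : ℕ → List ℕ)
    (req : ℕ → Finset (List ℕ) × Finset ℕ) (n : ℕ) (σ : FSt W) (hσ : FInv n σ) :
    ∃ σ', FInv (n + 1) σ' ∧ FRel τ k e req n σ σ' := by
  classical
  obtain ⟨i1, i2⟩ := hσ
  let R' : ℕ → Tr := Function.update σ.R n σ.q.T
  have hR' : ∀ i, i ≠ n → R' i = σ.R i := fun i hi => Function.update_of_ne hi _ _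
  have hR'n : R' n = σ.q.T := Function.update_self _ _ _
  have hSA : ∀ u ∈ σ.act, SA R' u = SA σ.R u := by
    intro u hu
    obtain ⟨i, t, rfl, hi⟩ := i2 u hu
    show (R' i).sub t = (σ.R i).sub t
    rw [hR' i (by omega)]
  -- the new child and the new point
  have hnew : ∃ (new : Finset (List ℕ)) (z : ℕ),
      (∀ u ∈ new, ∃ j, u = e n ++ [j] ∧ e n ∈ σ.act ∧ (SA R' u).Al σ.q.Y ∧
        (SA R' u).pos (σ.A (e n))) ∧
      (∀ f, e n ∈ σ.act → SA σ.R (e n) = .node f → ∃ j ≥ n, e n ++ [j] ∈ new) ∧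
      (∀ C, e n ∈ σ.act → SA σ.R (e n) = .leaf C → n ≤ z ∧ z ∈ C ∧ z ∈ σ.A (e n)) := by
    by_cases hen : e n ∈ σ.act
    · obtain ⟨_, k2, k3⟩ := i1 _ hen
      have h0 := hSA _ hen
      cases hT : SA σ.R (e n) with
      | leaf C =>
        rw [hT] at k3
        obtain ⟨z, hz, hz'⟩ := (show (σ.A (e n) ∩ C).Infinite from k3).exists_gt n
        refine ⟨∅, z, fun u hu => absurd hu (Finset.notMem_empty u), ?_, ?_⟩
        · intro f _ hf
          cases hf
        · intro C' _ hC'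
          cases hC'
          exact ⟨hz'.le, hz.2, hz.1⟩
      | node f =>
        rw [hT] at k3 k2 h0
        obtain ⟨j, hj, hj'⟩ := k3 n
        have h1 : SA R' (e n ++ [j]) = f j := SA_append h0 j
        refine ⟨{e n ++ [j]}, 0, ?_, ?_, ?_⟩
        · intro u hu
          rw [Finset.mem_singleton.1 hu, h1]
          exact ⟨j, rfl, hen, k2 j, hj'⟩
        · intro f' _ hf'
          exact ⟨j, hj, Finset.mem_singleton_self _⟩
        · intro C' _ hC'
          cases hC'
    · exact ⟨∅, 0, fun u hu => absurd hu (Finset.notMem_empty u), fun f h1 => absurd h1 hen,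
        fun C h1 => absurd h1 hen⟩
  obtain ⟨new, z, n1, n2, n3⟩ := hnew
  let Act : Finset (List ℕ) := σ.act ∪ insert [n] new
  let A2 : List ℕ → Set ℕ := fun u => if u ∈ σ.act then σ.A u else if u = [n] then univ else
    σ.A (e n)
  have hA21 : ∀ u ∈ σ.act, A2 u = σ.A u := fun u hu => if_pos hu
  have hn0 : [n] ∉ σ.act := by
    intro h1
    obtain ⟨i, t, h2, h3⟩ := i2 _ h1
    simp only [List.cons.injEq] at h2
    omega
  have hA22 : A2 [n] = univ := by
    simp only [A2, if_neg hn0, if_true]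
  have hA23 : ∀ u ∈ new, u ∉ σ.act → A2 u = σ.A (e n) := by
    intro u hu hu'
    obtain ⟨j, h1, h2, _⟩ := n1 u hu
    have h3 : u ≠ [n] := by
      rintro rfl
      obtain ⟨i, t, h4, h5⟩ := i2 _ h2
      rw [h4] at h1
      simp at h1
    simp only [A2, if_neg hu', if_neg h3]
  have hmem : ∀ u ∈ Act, A2 u ∈ σ.q.Y ∧ (SA R' u).Al σ.q.Y ∧ (SA R' u).pos (A2 u) := by
    intro u hu
    by_cases h1 : u ∈ σ.act
    · rw [hA21 u h1, hSA u h1]
      exact i1 u h1
    · rcases Finset.mem_union.1 hu with h2 | h2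
      · exact absurd h2 h1
      · rcases Finset.mem_insert.1 h2 with rfl | h3
        · rw [hA22]
          have h4 : SA R' [n] = σ.q.T := by
            show (R' n).sub [] = _
            rw [sub_nil, hR'n]
          rw [h4]
          exact ⟨σ.q.hYu, σ.q.hal, σ.q.hpos⟩
        · rw [hA23 u h3 h1]
          obtain ⟨j, _, h5, h6, h7⟩ := n1 u h3
          exact ⟨(i1 _ h5).1, h6, h7⟩
  let a : Finset (List ℕ) := if (req n).1 ⊆ σ.act then (req n).1 else ∅
  have ha : a ⊆ Act := by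
    by_cases h1 : (req n).1 ⊆ σ.act
    · simp only [a, if_pos h1]
      exact h1.trans Finset.subset_union_left
    · simp only [a, if_neg h1]
      exact Finset.empty_subset _
  obtain ⟨q', hq', hlt, A', hA', hbdd, used', hused, hreq⟩ := step hW τ σ.q k Act (SA R') A2 hmem
    a ha (req n).2 σ.used
  refine ⟨⟨q', Act, R', A', used', z⟩, ⟨fun u hu => ⟨(hA' u hu).2.1,
    Al_mono hq'.2.2.2.1 (hmem u hu).2.1, (hA' u hu).2.2⟩, ?_⟩, ⟨hq', hlt, hR'n, hR',
    Finset.subset_union_left, ?_, ?_, ?_, ?_, n3, hbdd, hused, ?_⟩⟩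
  · intro u hu
    rcases Finset.mem_union.1 hu with h2 | h2
    · obtain ⟨i, t, h3, h4⟩ := i2 u h2
      exact ⟨i, t, h3, by omega⟩
    · rcases Finset.mem_insert.1 h2 with rfl | h3
      · exact ⟨n, [], rfl, by omega⟩
      · obtain ⟨j, rfl, h5, _⟩ := n1 u h3
        obtain ⟨i, t, h6, h7⟩ := i2 _ h5
        exact ⟨i, t ++ [j], by rw [h6]; rfl, by omega⟩
  · exact Finset.mem_union_right _ (Finset.mem_insert_self _ _)
  · intro u hu
    have h1 := (hA' u (Finset.mem_union_left _ hu)).1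
    rw [hA21 u hu] at h1
    exact h1
  · intro u hu
    by_cases h1 : u ∈ σ.act
    · exact Or.inl h1
    · rcases Finset.mem_union.1 hu with h2 | h2
      · exact absurd h2 h1
      · rcases Finset.mem_insert.1 h2 with h3 | h3
        · exact Or.inr (Or.inl h3)
        · obtain ⟨j, h4, h5, _⟩ := n1 u h3
          refine Or.inr (Or.inr ⟨e n, h5, j, h4, ?_⟩)
          have h6 := (hA' u hu).1
          rw [hA23 u h3 h1] at h6
          exact h6
  · intro f hf hf'
    obtain ⟨j, hj, hj'⟩ := n2 f hf hf'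
    exact ⟨j, hj, Finset.mem_union_right _ (Finset.mem_insert_of_mem hj')⟩
  · intro h1 h2
    have h3 : a = (req n).1 := if_pos h1
    rw [h3] at hreq
    refine hreq ?_
    rw [Gd_congr (fun u hu => hSA u (h1 hu)) (fun u hu => hA21 u (h1 hu))]
    exact h2

/-- the reflection property of the limit of a fusion -/
def Star (τ : Name W) (k : ℕ) (q : Cond W) : Prop :=
  ∀ (a : Finset (List ℕ)) (G : Finset ℕ),
    ¬ (Gd τ q k a q.T.sub (fun _ => univ) G).Countable →
    {β | ∃ B, τ.v q β B ∧ (↑G : Set ℕ) ⊆ B ∧ ∀ u ∈ a, (q.T.sub u).big B}.Infinite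

theorem exists_star (hW : OmegaOneLike W) (τ : Name W) (k : ℕ) (p : Cond W) :
    ∃ q ≤ p, Star τ k q := by
  classical
  obtain ⟨e, he⟩ := exists_visits (List ℕ)
  obtain ⟨req, hreq⟩ := exists_visits (Finset (List ℕ) × Finset ℕ)
  obtain ⟨x, hx0, hx1, hx2⟩ := exists_seq (fun n σ => FInv n σ)
    (fun n σ σ' => FRel τ k e req n σ σ')
    (⟨p, ∅, fun _ => .leaf ∅, fun _ => ∅, ∅, 0⟩ : FSt W)
    ⟨fun u hu => absurd hu (Finset.notMem_empty u), fun u hu => absurd hu (Finset.notMem_empty u)⟩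
    (fun n σ hσ => fstep hW τ k e req n σ hσ)
  -- monotonicity
  let q : ℕ → Cond W := fun n => (x n).q
  have hq : ∀ i, q (i + 1) ≤ q i := fun i => (hx2 i).le
  have hd : ∀ {i j}, i ≤ j → (q i).d ≤ (q j).d := fun hij => (anti hq hij).1
  have hdlt : ∀ i, (q i).d < (q (i + 1)).d := fun i => (hx2 i).lt
  have hact : ∀ {m n}, m ≤ n → (x m).act ⊆ (x n).act := fun hmn =>
    monotone_nat_of_le_succ (f := fun n => (x n).act) (fun n => (hx2 n).act) hmn
  have hused : ∀ {m n}, m ≤ n → (x m).used ⊆ (x n).used := fun hmn =>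
    monotone_nat_of_le_succ (f := fun n => (x n).used) (fun n => (hx2 n).used) hmn
  have hAmono : ∀ {m n u}, m ≤ n → u ∈ (x m).act → (x n).A u ⊆ (x m).A u := by
    intro m n u hmn hu
    induction hmn with
    | refl => exact Subset.rfl
    | step h ih => exact ((hx2 _).anti u (hact h hu)).trans ih
  let R : ℕ → Tr := fun i => (q i).T
  have hR : ∀ n i, i < n → (x n).R i = R i := by
    intro n
    induction n with
    | zero => intro i hi; omega
    | succ n ih =>
      intro i hi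
      by_cases h1 : i = n
      · subst h1
        exact (hx2 i).root
      · rw [(hx2 n).roots i h1]
        exact ih i (by omega)
  have hSA : ∀ {n u}, u ∈ (x n).act → SA (x n).R u = SA R u := by
    intro n u hu
    obtain ⟨i, t, rfl, hi⟩ := (hx1 n).2 u hu
    show ((x n).R i).sub t = (R i).sub t
    rw [hR n i hi]
  -- the limit ordinal
  obtain ⟨l, hl, hl'⟩ := exists_sup hW fun i => (q i).d
  have hll : ∀ i, (q i).d < l := fun i => (hdlt i).trans_le (hl (i + 1))
  -- the bound function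
  have hbd := fun n => (hx2 n).bdd
  choose b hb1 hb2 hb3 using hbd
  let bw : W → ℕ := fun y => if hy : ∃ n, y < (q (n + 1)).d then b (Nat.find hy) y else 0
  have hbw : ∀ n y, (q n).d ≤ y → y < (q (n + 1)).d → bw y = b n y := by
    intro n y h1 h2
    have hy : ∃ n, y < (q (n + 1)).d := ⟨n, h2⟩
    have h3 : Nat.find hy = n := by
      apply le_antisymm (Nat.find_min' hy h2)
      by_contra hcon
      push Not at hcon
      have h4 : y < (q (Nat.find hy + 1)).d := Nat.find_spec hy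
      exact absurd (h4.trans_le (hd (show Nat.find hy + 1 ≤ n by omega))) h1.not_gt
    simp only [bw, dif_pos hy, h3]
  have hint : ∀ y, (q 0).d ≤ y → y < l → ∃ n, (q n).d ≤ y ∧ y < (q (n + 1)).d := by
    intro y h1 h2
    obtain ⟨i, hi⟩ := hl' y h2
    have hy : ∃ n, y < (q n).d := ⟨i, hi⟩
    have h3 : y < (q (Nat.find hy)).d := Nat.find_spec hy
    have h4 : Nat.find hy ≠ 0 := by
      intro h5
      rw [h5] at h3
      exact absurd h3 h1.not_gt
    obtain ⟨m, hm⟩ := Nat.exists_eq_succ_of_ne_zero h4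
    refine ⟨m, ?_, by rw [hm] at h3; exact h3⟩
    by_contra hcon
    push Not at hcon
    have := Nat.find_min' hy hcon
    omega
  have hbwk : ∀ y, (q 0).d ≤ y → y < l → bw y ≤ k := by
    intro y h1 h2
    obtain ⟨n, h3, h4⟩ := hint y h1 h2
    rw [hbw n y h3 h4]
    exact hb2 n y h3 h4
  have hLS : LS (limS q k) bw (q 0).d l := by
    intro l' h1 h2 h3
    rcases h3.lt_or_eq with h4 | h4
    · -- inside one of the intervals
      obtain ⟨i, hi⟩ := hl' l' h4
      have hy : ∃ n, l' ≤ (q n).d := ⟨i, hi.le⟩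
      have h5 : l' ≤ (q (Nat.find hy)).d := Nat.find_spec hy
      have h6 : Nat.find hy ≠ 0 := by
        intro h7
        rw [h7] at h5
        exact absurd h5 h2.not_ge
      obtain ⟨m, hm⟩ := Nat.exists_eq_succ_of_ne_zero h6
      rw [hm] at h5
      have h7 : (q m).d < l' := by
        by_contra hcon
        push Not at hcon
        have := Nat.find_min' hy hcon
        omega
      obtain ⟨g, hg, h8⟩ := hb1 m l' h1 h7 h5
      refine ⟨max g (q m).d, max_lt hg h7, fun y hy1 hy2 hy3 => ?_⟩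
      have h9 : (q m).d < y := lt_of_le_of_lt (le_max_right _ _) hy2
      rw [hbw m y h9.le (hy3.trans_le h5), limS_eq hq h5]
      exact h8 y h9.le (lt_of_le_of_lt (le_max_left _ _) hy2) hy3
    · rw [h4]
      refine ⟨(q 0).d, hll 0, fun y hy1 _ hy3 => ?_⟩
      rw [limS_top hll]
      exact hbwk y hy1 hy3
  -- the chosen points
  let X : List ℕ → Set ℕ := fun u => {z | ∃ n, e n = u ∧ u ∈ (x n).act ∧
    (∃ C, SA R u = .leaf C) ∧ z = (x (n + 1)).z}
  have hXmem : ∀ {n u C}, e n = u → u ∈ (x n).act → SA R u = .leaf C →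
      n ≤ (x (n + 1)).z ∧ (x (n + 1)).z ∈ C ∧ (x (n + 1)).z ∈ (x n).A u := by
    intro n u C h1 h2 h3
    have h4 := (hx2 n).leaf C (by rw [h1]; exact h2) (by rw [h1, hSA h2]; exact h3)
    rw [h1] at h4
    exact h4
  -- the first stage of a new address
  have hfirst : ∀ {n u j}, u ≠ [] → u ++ [j] ∉ (x n).act → (∃ m, u ++ [j] ∈ (x m).act) →
      ∃ m ≥ n, u ∈ (x m).act ∧ u ++ [j] ∈ (x (m + 1)).act ∧
        (x (m + 1)).A (u ++ [j]) ⊆ (x m).A u := by
    intro n u j hu h1 h2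
    have h3 : u ++ [j] ∈ (x (Nat.find h2)).act := Nat.find_spec h2
    have h4 : n < Nat.find h2 := by
      by_contra hcon
      push Not at hcon
      exact h1 (hact hcon h3)
    obtain ⟨m, hm⟩ := Nat.exists_eq_succ_of_ne_zero (show Nat.find h2 ≠ 0 by omega)
    rw [hm] at h3
    have h5 : u ++ [j] ∉ (x m).act := fun h6 => by
      have := Nat.find_min' h2 h6
      omega
    rcases (hx2 m).new _ h3 with h6 | h6 | ⟨v, hv, j', h6, h7⟩
    · exact absurd h6 h5
    · exfalso
      have h7 := congrArg List.length h6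
      simp only [List.length_append, List.length_cons, List.length_nil] at h7
      exact hu (List.eq_nil_of_length_eq_zero (by omega))
    · obtain ⟨h8, -⟩ := List.append_inj' h6 rfl
      subst h8
      exact ⟨m, by omega, hv, h3, h7⟩
  have hne : ∀ {n u}, u ∈ (x n).act → u ≠ [] := by
    intro n u hu
    obtain ⟨i, t, rfl, _⟩ := (hx1 n).2 u hu
    simp
  -- positivity implies that the address is active
  have claim3 : ∀ (T : Tr) (u : List ℕ) (A : Set ℕ), u ≠ [] → (T.rel X u).pos A →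
      ∃ n, u ∈ (x n).act := by
    intro T
    induction T with
    | leaf C =>
      intro u A _ h1
      obtain ⟨z, hz⟩ := (show (A ∩ X u).Infinite from h1).nonempty
      obtain ⟨n, _, h2, _⟩ := hz.2
      exact ⟨n, h2⟩
    | node f ih =>
      intro u A hu h1
      obtain ⟨j, _, h2⟩ := h1 0
      have h3 := ih j (u ++ [j]) A (by simp) h2
      obtain ⟨m, _, h4, _⟩ := hfirst (n := 0) hu (by rw [hx0]; exact Finset.notMem_empty _) h3
      exact ⟨m, h4⟩
  have claim1 : ∀ (T : Tr) (u : List ℕ) (n : ℕ), u ∈ (x n).act → SA R u = T →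
      (T.rel X u).pos univ := by
    intro T
    induction T with
    | leaf C =>
      intro u n hu hT
      refine Set.infinite_of_forall_exists_gt fun N => ?_
      obtain ⟨m, hm, hm'⟩ := he u (max n (N + 1))
      have h1 := hact (le_of_max_le_left hm) hu
      obtain ⟨h2, h3, h4⟩ := hXmem hm' h1 hT
      refine ⟨(x (m + 1)).z, ⟨trivial, m, hm', h1, ⟨C, hT⟩, rfl⟩, ?_⟩
      have := le_of_max_le_right hm
      omega
    | node f ih =>
      intro u n hu hT N
      obtain ⟨m, hm, hm'⟩ := he u (max n N)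
      have h1 := hact (le_of_max_le_left hm) hu
      obtain ⟨j, hj, hj'⟩ := (hx2 m).node f (by rw [hm']; exact h1)
        (by rw [hm', hSA h1]; exact hT)
      rw [hm'] at hj'
      exact ⟨j, (le_of_max_le_right hm).trans hj, ih j _ _ hj' (SA_append hT j)⟩
  let PT : List ℕ → Set ℕ := fun u => {z | ∃ w, z ∈ X (u ++ w)}
  have claim2 : ∀ (T : Tr) (u : List ℕ) (A : Set ℕ) (n : ℕ), u ∈ (x n).act → SA R u = T →
      (T.rel X u).pos A → T.pos (A ∩ (x n).A u ∩ PT u) := by
    intro T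
    induction T with
    | leaf C =>
      intro u A n hu hT h1
      have h2 : ((A ∩ X u) \ ((Finset.range n).image fun m => (x (m + 1)).z : Finset ℕ)).Infinite :=
        (show (A ∩ X u).Infinite from h1).sdiff (Finset.finite_toSet _)
      refine h2.mono ?_
      rintro z ⟨⟨hz1, m, hm1, hm2, hm3, hm4⟩, hz2⟩
      have h3 : n ≤ m := by
        by_contra hcon
        push Not at hcon
        exact hz2 (by
          simp only [Finset.coe_image, mem_image, Finset.coe_range, mem_Iio]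
          exact ⟨m, hcon, hm4.symm⟩)
      obtain ⟨h4, h5, h6⟩ := hXmem hm1 hm2 hT
      rw [← hm4] at h5 h6
      exact ⟨⟨⟨hz1, hAmono h3 hu h6⟩, [], by
        rw [List.append_nil]; exact ⟨m, hm1, hm2, hm3, hm4⟩⟩, h5⟩
    | node f ih =>
      intro u A n hu hT h1 N
      -- only finitely many children are active at stage `n`
      have h2 : ∃ N', ∀ j ≥ N', u ++ [j] ∉ (x n).act := by
        have h3 : {j | u ++ [j] ∈ (x n).act}.Finite := by
          have h4 : Set.InjOn (fun j : ℕ => u ++ [j]) {j | u ++ [j] ∈ (x n).act} := by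
            intro j _ j' _ h5
            have h6 : u ++ [j] = u ++ [j'] := h5
            simpa using h6
          refine Set.Finite.of_finite_image ?_ h4
          refine (Finset.finite_toSet (x n).act).subset ?_
          rintro _ ⟨j, hj, rfl⟩
          exact hj
        obtain ⟨M, hM⟩ := h3.bddAbove
        refine ⟨M + 1, fun j hj h5 => ?_⟩
        have := hM h5
        omega
      obtain ⟨N', hN'⟩ := h2
      obtain ⟨j, hj, hj'⟩ := h1 (max N N')
      have h3 := claim3 (f j) (u ++ [j]) A (by simp) hj'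
      obtain ⟨m, hm, hm1, hm2, hm3⟩ := hfirst (hne hu) (hN' j (le_of_max_le_right hj)) h3
      refine ⟨j, le_of_max_le_left hj, ?_⟩
      have h4 := ih j (u ++ [j]) A (m + 1) hm2 (SA_append hT j) hj'
      refine pos_mono ?_ h4
      rintro z ⟨⟨hz1, hz2⟩, w, hz3⟩
      refine ⟨⟨hz1, hAmono hm hu (hm3 hz2)⟩, [j] ++ w, ?_⟩
      rw [← List.append_assoc]
      exact hz3
  -- the limit condition
  let V : ℕ → Set ℕ := fun i => {z | ∃ t, z ∈ X (i :: t)}
  have hSAi : ∀ i, SA R [i] = (q i).T := fun i => sub_nil _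
  have hroot : ∀ i, [i] ∈ (x (i + 1)).act := fun i => (hx2 i).newroot
  have hV : ∀ i A, ((q i).T.rel X [i]).pos A → (q i).T.pos (A ∩ V i) := by
    intro i A h1
    refine pos_mono ?_ (claim2 _ [i] A (i + 1) (hroot i) (hSAi i) h1)
    rintro z ⟨⟨hz1, _⟩, w, hz2⟩
    exact ⟨hz1, w, hz2⟩
  have hVb : ∀ i y, (q i).d ≤ y → y < l → (V i \ {z | limH q y z ≤ bw y}).Finite := by
    intro i y hy hyl
    obtain ⟨n, hn1, hn2⟩ := hint y ((hd (Nat.zero_le i)).trans hy) hyl
    have hin : i ≤ n := by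
      by_contra hcon
      push Not at hcon
      exact absurd (hn2.trans_le (hd (show n + 1 ≤ i by omega))) hy.not_gt
    have h1 : ∀ m, n + 1 ≤ m → ∀ t, (i :: t) ∈ (x m).act →
        ∃ v' ∈ (x (n + 1)).act, (x m).A (i :: t) ⊆ (x (n + 1)).A v' := by
      intro m hm
      induction m, hm using Nat.le_induction with
      | base => exact fun t ht => ⟨_, ht, Subset.rfl⟩
      | succ m hm ih =>
        intro t ht
        rcases (hx2 m).new _ ht with h2 | h2 | ⟨v, hv, j, h2, h3⟩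
        · obtain ⟨v', hv', h3⟩ := ih t h2
          exact ⟨v', hv', ((hx2 m).anti _ h2).trans h3⟩
        · exfalso
          simp only [List.cons.injEq] at h2
          omega
        · obtain ⟨i', t', h4, h5⟩ := (hx1 m).2 v hv
          rw [h4, List.cons_append, List.cons.injEq] at h2
          have h6 : i' = i := h2.1.symm
          subst h6
          rw [h4] at hv h3
          obtain ⟨v', hv', h7⟩ := ih t' hv
          exact ⟨v', hv', h3.trans h7⟩
    rw [hbw n y hn1 hn2, limH_eq hq hn2]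
    refine ((Finset.finite_toSet ((Finset.range (n + 1)).image fun m => (x (m + 1)).z)).union
      (hb3 n y hn1 hn2)).subset ?_
    rintro z ⟨⟨t, m, hm1, hm2, ⟨C, hC⟩, hm4⟩, hz⟩
    by_cases hmn : m ≤ n
    · left
      simp only [Finset.coe_image, mem_image, Finset.coe_range, mem_Iio]
      exact ⟨m, by omega, hm4.symm⟩
    · right
      obtain ⟨_, _, h4⟩ := hXmem hm1 hm2 hC
      rw [← hm4] at h4
      obtain ⟨v', hv', h5⟩ := h1 m (by omega) t hm2
      refine ⟨?_, hz⟩
      simp only [mem_iUnion, exists_prop]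
      exact ⟨v', hv', h5 h4⟩
  obtain ⟨r, hr1, hr2, hr3, hr4, hr5, _⟩ := exists_limit q hq l hl hl' k
    (fun i => (q i).T.rel X [i]) (range X) (countable_range X)
    (fun i => Al_rel (fun u => subset_Cl _ (Or.inr ⟨u, rfl⟩)) _ _)
    (fun i => claim1 _ [i] (i + 1) (hroot i) (hSAi i)) V hV bw k hbwk hLS hVb
  refine ⟨r, ?_, ?_⟩
  · have := hr1 0
    rwa [show q 0 = p by show (x 0).q = p; rw [hx0]] at this
  -- the reflection property
  intro a G hGd
  have hsubr : ∀ {u A}, u ≠ [] → (r.T.sub u).pos A →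
      (∃ n, u ∈ (x n).act) ∧ ((SA R u).rel X u).pos A := by
    intro u A hu h1
    cases u with
    | nil => exact absurd rfl hu
    | cons i t =>
      rw [hr5] at h1
      have h2 : (((q i).T.rel X [i]).sub t).pos A := h1
      rw [sub_rel h2] at h2
      exact ⟨claim3 _ _ A (by simp) h2, h2⟩
  have hLSn : ∀ n, LS (limS q k) bw (q n).d l := by
    intro n l' h1 h2 h3
    obtain ⟨g, hg, h4⟩ := hLS l' h1 ((hd (Nat.zero_le n)).trans_lt h2) h3
    exact ⟨g, hg, fun y hy => h4 y ((hd (Nat.zero_le n)).trans hy)⟩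
  obtain ⟨β₀, hβ₀⟩ : (Gd τ r k a r.T.sub (fun _ => univ) G).Nonempty := by
    by_contra hcon
    rw [not_nonempty_iff_eq_empty] at hcon
    exact hGd (hcon ▸ countable_empty)
  let a' := a.erase []
  have hactive : ∃ N, ∀ n ≥ N, a' ⊆ (x n).act := by
    obtain ⟨r', _, B, _, _, h1⟩ := hβ₀
    have h2 : ∀ u ∈ a', ∃ n, u ∈ (x n).act := by
      intro u hu
      obtain ⟨A', _, h3, _⟩ := h1 u (Finset.mem_of_mem_erase hu)
      exact (hsubr (Finset.ne_of_mem_erase hu) h3).1
    choose! f hf using h2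
    exact ⟨a'.sup f, fun n hn u hu => hact ((Finset.le_sup hu).trans hn) (hf u hu)⟩
  obtain ⟨N, hN⟩ := hactive
  have hGn : ∀ n ≥ N, ¬ (Gd τ (q n) k a' (SA (x n).R) (x n).A G).Countable := by
    intro n hn hc
    refine hGd (hc.mono ?_)
    rintro β ⟨r', hr', B, h1, h2, h3⟩
    refine ⟨r', hr'.trans (hr1 n), B, h1, h2, fun u hu => ?_⟩
    have hun := hN n hn hu
    obtain ⟨A', hA', h4, h5⟩ := h3 u (Finset.mem_of_mem_erase hu)
    have h6 := claim2 _ u A' n hun rfl (hsubr (Finset.ne_of_mem_erase hu) h4).2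
    refine ⟨A' ∩ (x n).A u ∩ PT u, fun z hz => ⟨(hA' hz.1.1).1, hz.1.2⟩, by
      rw [hSA hun]; exact h6, ?_⟩
    rw [hr2] at h5
    refine Bdd.glue (d := l) ?_ (h5.sub fun z hz => hz.1.1)
    obtain ⟨i, t, rfl, hi⟩ := (hx1 n).2 u hun
    have h7 : Bdd (limS q k) (limH q) (q n).d l k (V i) :=
      ⟨bw, hLSn n, fun y hy hy' => hbwk y ((hd (Nat.zero_le n)).trans hy) hy',
        fun y hy hy' => hVb i y ((hd hi.le).trans hy) hy'⟩
    refine (h7.congr (s' := r'.s) (h' := r'.h) ?_ ?_).sub ?_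
    · intro y hy
      rw [hr'.2.1 y (by rw [hr2]; exact hy), hr3]
    · intro y hy
      rw [hr'.2.2.1 y (by rw [hr2]; exact hy), hr4]
    · rintro z ⟨_, w, hz⟩
      exact ⟨t ++ w, hz⟩
  have hK : ∀ M, ∃ n ≥ M, N ≤ n ∧ req n = (a', G) := by
    intro M
    obtain ⟨n, hn, hn'⟩ := hreq (a', G) (max M N)
    exact ⟨n, le_of_max_le_left hn, le_of_max_le_right hn, hn'⟩
  have hKinf : {n | N ≤ n ∧ req n = (a', G)}.Infinite := by
    refine Set.infinite_of_forall_exists_gt fun M => ?_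
    obtain ⟨n, hn, hn'⟩ := hK (M + 1)
    exact ⟨n, hn', by omega⟩
  have hβ : ∀ n, N ≤ n ∧ req n = (a', G) → ∃ β ∉ (x n).used, β ∈ (x (n + 1)).used ∧
      ∃ B, τ.v (q (n + 1)) β B ∧ B ∈ F (q (n + 1)) ∧ (↑G : Set ℕ) ⊆ B ∧
        ∀ u ∈ a', (x (n + 1)).A u ⊆ B := by
    rintro n ⟨hn, hn'⟩
    have h1 := (hx2 n).req
    rw [hn'] at h1
    exact h1 (hN n hn) (hGn n hn)
  have : Nonempty W := ⟨p.d⟩
  choose! β hβ1 hβ2 B hB1 hB2 hB3 hB4 using hβ
  refine Set.infinite_of_injOn_mapsTo (f := β) ?_ ?_ hKinf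
  · intro m hm n hn hmn
    rcases lt_trichotomy m n with h1 | h1 | h1
    · exact absurd (hused (Nat.succ_le_of_lt h1) (hβ2 m hm)) (hmn ▸ hβ1 n hn)
    · exact h1
    · exact absurd (hused (Nat.succ_le_of_lt h1) (hβ2 n hn)) (hmn ▸ hβ1 m hm)
  · intro n hn
    refine ⟨B n, τ.mono _ _ _ _ (hr1 (n + 1)) (hB1 n hn), hB3 n hn, fun u hu => ?_⟩
    by_cases hu0 : u = []
    · subst hu0
      rw [sub_nil]
      exact F_mono (hr1 (n + 1)) (hB2 n hn)
    · intro h1
      have hu' : u ∈ a' := Finset.mem_erase.2 ⟨hu0, hu⟩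
      have hun : u ∈ (x (n + 1)).act := hN (n + 1) (by have := hn.1; omega) hu'
      have h2 := claim2 _ u (B n)ᶜ (n + 1) hun rfl (hsubr hu0 h1).2
      have h3 : (B n)ᶜ ∩ (x (n + 1)).A u ∩ PT u = ∅ := by
        ext z
        simp only [mem_inter_iff, mem_compl_iff, mem_empty_iff_false, iff_false, not_and]
        intro h4 _
        exact absurd (hB4 n hn u hu' h4.2) h4.1
      rw [h3] at h2
      exact pos_infinite h2 finite_empty

end Pool.Agent.H99.FB
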