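import Pool.Agent.H99.FB.Cond

/-!
# Limits of decreasing sequences of conditions
-/

set_option autoImplicit false

namespace Pool.Agent.H99.FB

open Set
open Pool.Agent.H282R3.FP (OmegaOneLike)

variable {W : Type} [LinearOrder W]

theorem exists_diag_set (Y : Set (Set ℕ)) (hY : Y.Countable) (I : Set W) (hI : I.Countable)
    (Q : W → Set ℕ) (f : ℕ → ℕ)
    (h : ∀ C ∈ Y, C.Infinite → ∀ t : Finset W, (∀ x ∈ t, x ∈ I) →
      (C ∩ {z | ∀ x ∈ t, z ∈ Q x}).Infinite) :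
    ∃ Z : Set ℕ, (∀ C ∈ Y, C.Infinite → (C ∩ Z).Infinite) ∧ (∀ x ∈ I, (Z \ Q x).Finite) ∧
      ∀ n, (Z ∩ {z | z < f n}).ncard ≤ n := by
  classical
  rcases I.eq_empty_or_nonempty with hI0 | hI0
  · obtain ⟨Z, h1, _, h3⟩ := exists_diag Y hY (fun _ => univ) f fun C _ hCi n => by simpa using hCi
    exact ⟨Z, h1, by simp [hI0], h3⟩
  · obtain ⟨e, he⟩ := hI.exists_eq_range hI0
    obtain ⟨Z, h1, h2, h3⟩ := exists_diag Y hY (fun i => Q (e i)) f fun C hC hCi n => by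
      refine (h C hC hCi ((Finset.range n).image e) ?_).mono ?_
      · intro x hx
        obtain ⟨i, _, rfl⟩ := Finset.mem_image.1 hx
        rw [he]
        exact mem_range_self i
      · rintro z ⟨hz, hz'⟩
        refine ⟨hz, fun i hi => hz' (e i) (Finset.mem_image.2 ⟨i, Finset.mem_range.2 hi, rfl⟩)⟩
    refine ⟨Z, h1, ?_, h3⟩
    intro x hx
    rw [he] at hx
    obtain ⟨i, rfl⟩ := hx
    exact h2 i

/-- a set which hits everything recorded and on which the new functions vanish -/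
theorem push (hW : OmegaOneLike W) {q p : Cond W} (hqp : q ≤ p) :
    ∃ Z : Set ℕ, (∀ C ∈ p.Y, C.Infinite → (C ∩ Z).Infinite) ∧
      ∀ x, p.d ≤ x → x < q.d → (Z \ {z | q.h x z = 0}).Finite := by
  obtain ⟨Z, h1, h2, _⟩ := exists_diag_set p.Y p.hYc {x | p.d ≤ x ∧ x < q.d}
    ((hW.countable q.d).mono fun x hx => hx.2) (fun x => {z | q.h x z = 0}) (fun _ => 0)
    fun C hC hCi t ht => hqp.2.2.2.2.1 C hC hCi t ht fun _ => 0
  exact ⟨Z, h1, fun x hx hx' => h2 x ⟨hx, hx'⟩⟩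

theorem anti {p : ℕ → Cond W} (hp : ∀ i, p (i + 1) ≤ p i) {i j : ℕ} (hij : i ≤ j) :
    p j ≤ p i := antitone_nat_of_succ_le hp hij

open Classical in
/-- the function `s` of the limit -/
noncomputable def limS (p : ℕ → Cond W) (k : ℕ) (x : W) : ℕ :=
  if hx : ∃ i, x ≤ (p i).d then (p (Nat.find hx)).s x else k

open Classical in
/-- the functions `h x` of the limit -/
noncomputable def limH (p : ℕ → Cond W) (x : W) : ℕ → ℕ :=
  if hx : ∃ i, x < (p i).d then (p (Nat.find hx)).h x else fun _ => 0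

theorem limS_eq {p : ℕ → Cond W} (hp : ∀ i, p (i + 1) ≤ p i) {k i : ℕ} {x : W}
    (hx : x ≤ (p i).d) : limS p k x = (p i).s x := by
  classical
  have h1 : ∃ i, x ≤ (p i).d := ⟨i, hx⟩
  unfold limS
  rw [dif_pos h1]
  have h2 : x ≤ (p (Nat.find h1)).d := Nat.find_spec h1
  exact ((anti hp (Nat.find_min' h1 hx)).2.1 x h2).symm

theorem limH_eq {p : ℕ → Cond W} (hp : ∀ i, p (i + 1) ≤ p i) {i : ℕ} {x : W}
    (hx : x < (p i).d) : limH p x = (p i).h x := by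
  classical
  have h1 : ∃ i, x < (p i).d := ⟨i, hx⟩
  unfold limH
  rw [dif_pos h1]
  have h2 : x < (p (Nat.find h1)).d := Nat.find_spec h1
  exact ((anti hp (Nat.find_min' h1 hx)).2.2.1 x h2).symm

theorem limS_top {p : ℕ → Cond W} {k : ℕ} {x : W} (hx : ∀ i, (p i).d < x) : limS p k x = k := by
  unfold limS
  rw [dif_neg]
  push Not
  exact hx

theorem exists_limit (p : ℕ → Cond W) (hp : ∀ i, p (i + 1) ≤ p i) (l : W)
    (hl : ∀ i, (p i).d ≤ l) (hl' : ∀ w < l, ∃ i, w < (p i).d) (k : ℕ)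
    (T' : ℕ → Tr) (S : Set (Set ℕ)) (hS : S.Countable)
    (hal : ∀ i, (T' i).Al (Cl ((⋃ i, (p i).Y) ∪ S)))
    (hpos : ∀ i, (T' i).pos univ) (V : ℕ → Set ℕ)
    (hV : ∀ i A, (T' i).pos A → (p i).T.pos (A ∩ V i))
    (b : W → ℕ) (K : ℕ) (hbK : ∀ x, (p 0).d ≤ x → x < l → b x ≤ K)
    (hLS : LS (limS p k) b (p 0).d l)
    (hb : ∀ i x, (p i).d ≤ x → x < l → (V i \ {z | limH p x z ≤ b x}).Finite) :
    ∃ q : Cond W, (∀ i, q ≤ p i) ∧ q.d = l ∧ q.s = limS p k ∧ q.h = limH p ∧ q.T = .node T' ∧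
      S ⊆ q.Y := by
  classical
  have hsub : ∀ i, (p i).Y ⊆ Cl ((⋃ i, (p i).Y) ∪ S) := fun i =>
    (subset_iUnion (fun i => (p i).Y) i).trans (subset_union_left.trans (subset_Cl _))
  have hd : ∀ {i j}, i ≤ j → (p i).d ≤ (p j).d := fun hij => (anti hp hij).1
  refine ⟨⟨l, limS p k, limH p, Cl ((⋃ i, (p i).Y) ∪ S), .node T', ?_, Cl_inter, univ_mem_Cl _,
    hsub 0 (p 0).hYe, ?_, hal, ?_, ?_, ?_⟩, fun i => ⟨hl i, ?_, ?_, hsub i, ?_, ?_⟩, rfl, rfl,
    rfl, rfl, subset_union_right.trans (subset_Cl _)⟩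
  · exact Cl_countable ((countable_iUnion fun i => (p i).hYc).union hS)
  · intro x hx m
    obtain ⟨i, hi⟩ := hl' x hx
    rw [limH_eq hp hi]
    exact hsub i ((p i).hYh x hi m)
  · exact fun N => ⟨N, le_rfl, hpos N⟩
  · intro x hx m h1
    obtain ⟨i, hi⟩ := hl' x hx
    obtain ⟨n, hn, h2⟩ := h1 i
    have h3 := hV _ _ h2
    have hxn : x < (p n).d := hi.trans_le (hd hn)
    rw [limH_eq hp hxn] at h3
    exact (p n).hnull x hxn m (pos_mono inter_subset_left h3)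
  · intro A hA
    obtain ⟨n, _, h2⟩ := hA 0
    obtain ⟨C, hC, hCi, e, he1, he2⟩ := (p n).hcol _ (hV _ _ h2)
    refine ⟨C, hC.trans inter_subset_left, hCi, fun x => if x < (p n).d then e x else b x,
      ?_, ?_⟩
    · intro l' hl1 hl2
      by_cases hl3 : l' ≤ (p n).d
      · obtain ⟨g, hg, h3⟩ := he1 l' hl1 hl3
        refine ⟨g, hg, fun x hx hxl => ?_⟩
        rw [limS_eq hp hl3]
        simp only [if_pos (hxl.trans_le hl3)]
        exact h3 x hx hxl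
      · push Not at hl3
        obtain ⟨g, hg, h3⟩ := hLS l' hl1 ((hd (Nat.zero_le n)).trans_lt hl3) hl2
        refine ⟨max g (p n).d, max_lt hg hl3, fun x hx hxl => ?_⟩
        have hx1 : (p n).d < x := lt_of_le_of_lt (le_max_right _ _) hx
        simp only [if_neg hx1.not_gt]
        exact h3 x ((hd (Nat.zero_le n)).trans hx1.le) (lt_of_le_of_lt (le_max_left _ _) hx) hxl
    · intro x hx
      by_cases hxn : x < (p n).d
      · simp only [if_pos hxn]
        rw [limH_eq hp hxn]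
        exact he2 x hxn
      · simp only [if_neg hxn]
        refine (hb n x (not_lt.1 hxn) hx).subset ?_
        rintro z ⟨hz, hz'⟩
        exact ⟨(hC hz).2, hz'⟩
  · exact fun x hx => limS_eq hp hx
  · exact fun x hx => limH_eq hp hx
  · intro C hC hCi t ht e
    have h1 : ∃ j, i ≤ j ∧ ∀ x ∈ t, x < (p j).d := by
      have h2 : ∀ x ∈ t, ∃ j, x < (p j).d := fun x hx => hl' x (ht x hx).2
      choose! f hf using h2
      refine ⟨max i (t.sup f), le_max_left _ _, fun x hx => ?_⟩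
      exact (hf x hx).trans_le (hd ((Finset.le_sup hx).trans (le_max_right _ _)))
    obtain ⟨j, hij, hj⟩ := h1
    refine ((anti hp hij).2.2.2.2.1 C hC hCi t (fun x hx => ⟨(ht x hx).1, hj x hx⟩) e).mono ?_
    rintro z ⟨hz, hz'⟩
    refine ⟨hz, fun x hx => ?_⟩
    show limH p x z = e x
    rw [limH_eq hp (hj x hx)]
    exact hz' x hx
  · intro A hA
    obtain ⟨n, hn, h2⟩ := hA i
    obtain ⟨A', hA', h3, k', h4⟩ := (anti hp hn).2.2.2.2.2 _ (hV _ _ h2)
    refine ⟨A', hA'.trans inter_subset_left, h3, max k' K, Bdd.glue (d := (p n).d) ?_ ?_⟩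
    · exact (h4.congr (s' := limS p k) (h' := limH p) (fun x hx => limS_eq hp hx)
        (fun x hx => limH_eq hp hx)).mono (le_max_left _ _) (by simp)
    · refine ⟨b, ?_, fun x hx hx' => (hbK x ((hd (Nat.zero_le n)).trans hx) hx').trans
        (le_max_right _ _), fun x hx hx' => (hb n x hx hx').subset ?_⟩
      · intro l' hl1 hl2 hl3
        obtain ⟨g, hg, h5⟩ := hLS l' hl1 ((hd (Nat.zero_le n)).trans_lt hl2) hl3
        exact ⟨g, hg, fun x hx => h5 x ((hd (Nat.zero_le n)).trans hx)⟩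
      · rintro z ⟨hz, hz'⟩
        exact ⟨(hA' hz).2, hz'⟩

theorem exists_sup (hW : OmegaOneLike W) (d : ℕ → W) :
    ∃ l, (∀ i, d i ≤ l) ∧ ∀ w < l, ∃ i, w < d i := by
  have := hW.wf
  obtain ⟨w, hw⟩ := hW.bdd (range d) (countable_range d)
  have hne : {w | ∀ i, d i ≤ w}.Nonempty := ⟨w, fun i => (hw _ ⟨i, rfl⟩).le⟩
  refine ⟨wellFounded_lt.min _ hne, fun i => wellFounded_lt.min_mem _ hne i, fun w hw => ?_⟩
  by_contra hcon
  push Not at hcon
  exact wellFounded_lt.not_lt_min _ (show w ∈ {w | ∀ i, d i ≤ w} from hcon) hw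

theorem exists_closed (hW : OmegaOneLike W) (p : ℕ → Cond W) (hp : ∀ i, p (i + 1) ≤ p i) :
    ∃ q : Cond W, (∀ i, q ≤ p i) ∧ ∃ Z : ℕ → Set ℕ,
      (∀ A, q.T.pos A → ∀ N, ∃ j ≥ N, (p j).T.pos (A ∩ Z j)) ∧
      ∀ j x, (p j).d ≤ x → x < q.d → (Z j \ {z | q.h x z = 0}).Finite := by
  classical
  obtain ⟨l, hl, hl'⟩ := exists_sup hW fun i => (p i).d
  have hd : ∀ {i j}, i ≤ j → (p i).d ≤ (p j).d := fun hij => (anti hp hij).1
  have h1 : ∀ i, ∃ Z : Set ℕ, (∀ C ∈ (p i).Y, C.Infinite → (C ∩ Z).Infinite) ∧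
      ∀ x, (p i).d ≤ x → x < l → (Z \ {z | limH p x z = 0}).Finite := by
    intro i
    obtain ⟨Z, h1, h2, _⟩ := exists_diag_set (p i).Y (p i).hYc {x | (p i).d ≤ x ∧ x < l}
      ((hW.countable l).mono fun x hx => hx.2) (fun x => {z | limH p x z = 0}) (fun _ => 0)
      (by
        intro C hC hCi t ht
        have h1 : ∃ j, i ≤ j ∧ ∀ x ∈ t, x < (p j).d := by
          have h2 : ∀ x ∈ t, ∃ j, x < (p j).d := fun x hx => hl' x (ht x hx).2
          choose! f hf using h2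
          refine ⟨max i (t.sup f), le_max_left _ _, fun x hx => ?_⟩
          exact (hf x hx).trans_le (hd ((Finset.le_sup hx).trans (le_max_right _ _)))
        obtain ⟨j, hij, hj⟩ := h1
        refine ((anti hp hij).2.2.2.2.1 C hC hCi t (fun x hx => ⟨(ht x hx).1, hj x hx⟩)
          fun _ => 0).mono ?_
        rintro z ⟨hz, hz'⟩
        refine ⟨hz, fun x hx => ?_⟩
        show limH p x z = 0
        rw [limH_eq hp (hj x hx)]
        exact hz' x hx)
    exact ⟨Z, h1, fun x hx hx' => h2 x ⟨hx, hx'⟩⟩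
  choose Z hZ1 hZ2 using h1
  have hsub : ∀ i, (p i).Y ⊆ Cl ((⋃ i, (p i).Y) ∪ range Z) := fun i =>
    (subset_iUnion (fun i => (p i).Y) i).trans (subset_union_left.trans (subset_Cl _))
  obtain ⟨q, hq1, hq2, _, hq4, hq5, _⟩ := exists_limit p hp l hl hl' 0
    (fun i => (p i).T.restr (Z i)) (range Z) (countable_range Z)
    (fun i => Al_restr Cl_inter (subset_Cl _ (Or.inr ⟨i, rfl⟩)) (Al_mono (hsub i) (p i).hal))
    (fun i => pos_restr.2 (pos_inter_hit (p i).hYi (hZ1 i) (p i).hYu (p i).hal (p i).hpos))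
    Z (fun i A h1 => pos_restr.1 h1) (fun _ => 0) 0 (fun _ _ _ => le_rfl)
    (fun l' _ h2 _ => ⟨_, h2, fun _ _ _ _ => Nat.zero_le _⟩)
    (fun i x hx hx' => (hZ2 i x hx hx').subset (by
      rintro z ⟨hz, hz'⟩
      exact ⟨hz, fun h3 => hz' (le_of_eq h3)⟩))
  refine ⟨q, hq1, Z, ?_, ?_⟩
  · intro A hA N
    rw [hq5] at hA
    obtain ⟨j, hj, h2⟩ := hA N
    exact ⟨j, hj, pos_restr.1 h2⟩
  · intro j x hx hx'
    rw [hq4]
    rw [hq2] at hx'
    exact hZ2 j x hx hx'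

/-- rapidity -/
theorem rapid (p : Cond W) (f : ℕ → ℕ) :
    ∃ q ≤ p, ∃ B ∈ F q, ∀ n, (B ∩ {z | z < f n}).ncard ≤ n := by
  obtain ⟨Z, h1, _, h3⟩ := exists_diag_set (W := W) p.Y p.hYc ∅ countable_empty (fun _ => univ) f
    (fun C _ hCi t _ => by simpa using hCi)
  have h4 := pos_inter_hit p.hYi h1 p.hYu p.hal p.hpos
  rw [univ_inter] at h4
  obtain ⟨q, hq, _, h5⟩ := restrict p Z h4
  exact ⟨q, hq, Z, h5, h3⟩

end Pool.Agent.H99.FB
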