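import Pool.Agent.H99.FB.Fus

/-!
# Every name of an `ω₁`-sequence has an infinite decided part with a large intersection
-/

set_option autoImplicit false

namespace Pool.Agent.H99.FB

open Set
open Pool.Agent.H282R3.FP (OmegaOneLike)

variable {W : Type} [LinearOrder W]

theorem main (hW : OmegaOneLike W) (τ : Name W) (p : Cond W) :
    ∃ q ≤ p, ∃ I : Set W, I.Infinite ∧ ∃ Bf : W → Set ℕ,
      (∀ β ∈ I, τ.v q β (Bf β)) ∧ (⋂ β ∈ I, Bf β) ∈ F q := by
  classical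
  choose f hf1 hf2 using fun k q => exists_star hW τ k q
  let q : ℕ → Cond W := fun n => Nat.rec (f 0 p) (fun i r => f (i + 1) r) n
  have hq : ∀ i, q (i + 1) ≤ q i := fun i => hf1 (i + 1) (q i)
  have hqs : ∀ i, Star τ i (q i) := by
    intro i
    cases i with
    | zero => exact hf2 0 p
    | succ i => exact hf2 (i + 1) (q i)
  have hq0 : ∀ i, q i ≤ p := fun i => (anti hq (Nat.zero_le i)).trans (hf1 0 p)
  obtain ⟨r, hr, Z, hZ1, hZ2⟩ := exists_closed hW q hq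
  -- the first claim
  have hA : ∃ i, ¬ (Gd τ (q i) i {[]} (q i).T.sub (fun _ => univ) ∅).Countable := by
    by_contra hcon
    push Not at hcon
    have h1 : (⋃ i, Gd τ (q i) i {[]} (q i).T.sub (fun _ => univ) ∅).Countable :=
      countable_iUnion hcon
    have h2 : ∃ β, β ∉ ⋃ i, Gd τ (q i) i {[]} (q i).T.sub (fun _ => univ) ∅ := by
      by_contra hcon2
      push Not at hcon2
      obtain ⟨w, hw⟩ := hW.bdd _ h1
      exact lt_irrefl _ (hw w (hcon2 w))
    obtain ⟨β, hβ⟩ := h2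
    obtain ⟨r0, hr0, B, hB⟩ := τ.tot r β
    obtain ⟨r1, hr1, hB1⟩ := τ.mem r0 β B hB
    have hr1r : r1 ≤ r := hr1.trans hr0
    obtain ⟨A, hA, hp, k', hb⟩ := hr1r.2.2.2.2.2 B (pos_of_F hB1)
    obtain ⟨j, hj, hpj⟩ := hZ1 A hp k'
    refine hβ (mem_iUnion.2 ⟨j, r1, hr1r.trans (hr j), B, τ.mono _ _ _ _ hr1 hB, by simp,
      fun u hu => ?_⟩)
    rw [Finset.mem_singleton.1 hu, sub_nil]
    refine ⟨A ∩ Z j, fun z hz => ⟨hA hz.1, trivial⟩, hpj, Bdd.glue (d := r.d) ?_ ?_⟩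
    · refine (Bdd.sub (A := Z j) (Bdd.zero fun x hx hx' => ?_) inter_subset_right)
      rw [hr1r.2.2.1 x hx']
      exact hZ2 j x hx hx'
    · refine Bdd.mono (A := A ∩ Z j) (hb.sub inter_subset_left) hj ?_
      rw [sdiff_self]
      exact finite_empty
  obtain ⟨i, hi⟩ := hA
  -- choose a generic index
  have hN : (⋃ x : Finset (List ℕ) × Finset ℕ,
      ⋃ _ : (Gd τ (q i) i x.1 (q i).T.sub (fun _ => univ) x.2).Countable,
      Gd τ (q i) i x.1 (q i).T.sub (fun _ => univ) x.2).Countable :=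
    countable_iUnion fun x => countable_iUnion fun h => h
  obtain ⟨β, hβ1, hβ2⟩ : ∃ β ∈ Gd τ (q i) i {[]} (q i).T.sub (fun _ => univ) ∅, β ∉
      (⋃ x : Finset (List ℕ) × Finset ℕ,
      ⋃ _ : (Gd τ (q i) i x.1 (q i).T.sub (fun _ => univ) x.2).Countable,
      Gd τ (q i) i x.1 (q i).T.sub (fun _ => univ) x.2) := by
    by_contra hcon
    push Not at hcon
    exact hi (hN.mono hcon)
  obtain ⟨r', hr', B, hB, _, hu⟩ := hβ1
  obtain ⟨A, hA, hp, hb⟩ := hu [] (Finset.mem_singleton_self _)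
  rw [sub_nil] at hp
  obtain ⟨X, _, hXp, I, hI, Bf, hBf⟩ := comb (q i).T A hp (fun β B => τ.v (q i) β B)
    (fun a G ha hG => by
      refine hqs i a G fun hc => hβ2 ?_
      simp only [mem_iUnion]
      exact ⟨(a, G), hc, r', hr', B, hB, fun z hz => (hA (hG hz)).1, fun u hu =>
        ⟨A, hA, ha u hu, hb⟩⟩)
  obtain ⟨q', hq', _, hXF⟩ := restrict (q i) X hXp
  exact ⟨q', hq'.trans (hq0 i), I, hI, Bf, fun β hβ => τ.mono _ _ _ _ hq' (hBf β hβ).1,
    F_up hXF (subset_iInter₂ fun β hβ => (hBf β hβ).2)⟩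

end Pool.Agent.H99.FB
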