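import Pool.Agent.H99.FB.Lim

/-!
# One step of the fusion
-/

set_option autoImplicit false

namespace Pool.Agent.H99.FB

open Set
open Pool.Agent.H282R3.FP (OmegaOneLike)

/-- A name for an `ω₁`-sequence of members of the ultrafilter; `v p β B` means that `p` forces the
`β`-th set to be `B`. -/
structure Name (W : Type) [LinearOrder W] where
  v : Cond W → W → Set ℕ → Prop
  mono : ∀ p q β B, q ≤ p → v p β B → v q β B
  fn : ∀ p β B B', v p β B → v p β B' → B = B'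
  tot : ∀ p β, ∃ q ≤ p, ∃ B, v q β B
  mem : ∀ p β B, v p β B → ∃ q ≤ p, B ∈ F q

variable {W : Type} [LinearOrder W]

theorem exists_succ (hW : OmegaOneLike W) (d : W) : ∃ e, ∀ x, x < e ↔ x ≤ d := by
  have := hW.wf
  obtain ⟨w, hw⟩ := hW.bdd {d} (countable_singleton d)
  have hne : {x | d < x}.Nonempty := ⟨w, hw d rfl⟩
  refine ⟨wellFounded_lt.min _ hne, fun x => ⟨fun hx => ?_, fun hx => ?_⟩⟩
  · by_contra hcon
    push Not at hcon
    exact wellFounded_lt.not_lt_min _ (show x ∈ {x | d < x} from hcon) hx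
  · exact hx.trans_lt (wellFounded_lt.min_mem _ hne)

theorem exists_grow (hW : OmegaOneLike W) (p : Cond W) : ∃ q ≤ p, p.d < q.d := by
  obtain ⟨e, he⟩ := exists_succ hW p.d
  obtain ⟨q, hq, h1, _⟩ := grow p e he 0
  exact ⟨q, hq, by rw [h1]; exact (he _).2 le_rfl⟩

/-- the indices `β` which can be decided together with the positivity of the given sets -/
def Gd (τ : Name W) (q : Cond W) (k : ℕ) (a : Finset (List ℕ)) (S : List ℕ → Tr)
    (A : List ℕ → Set ℕ) (G : Finset ℕ) : Set W :=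
  {β | ∃ r ≤ q, ∃ B, τ.v r β B ∧ (↑G : Set ℕ) ⊆ B ∧
    ∀ u ∈ a, ∃ A' ⊆ B ∩ A u, (S u).pos A' ∧ Bdd r.s r.h q.d r.d k A'}

theorem step (hW : OmegaOneLike W) (τ : Name W) (q : Cond W) (k : ℕ) (Act : Finset (List ℕ))
    (S : List ℕ → Tr) (A : List ℕ → Set ℕ)
    (hA : ∀ u ∈ Act, A u ∈ q.Y ∧ (S u).Al q.Y ∧ (S u).pos (A u)) (a : Finset (List ℕ))
    (ha : a ⊆ Act) (G : Finset ℕ) (used : Finset W) :
    ∃ q' ≤ q, q.d < q'.d ∧ ∃ A' : List ℕ → Set ℕ,
      (∀ u ∈ Act, A' u ⊆ A u ∧ A' u ∈ q'.Y ∧ (S u).pos (A' u)) ∧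
      Bdd q'.s q'.h q.d q'.d k (⋃ u ∈ Act, A' u) ∧
      ∃ used' : Finset W, used ⊆ used' ∧ (¬ (Gd τ q k a S A G).Countable →
        ∃ β ∉ used, β ∈ used' ∧ ∃ B, τ.v q' β B ∧ B ∈ F q' ∧ (↑G : Set ℕ) ⊆ B ∧
          ∀ u ∈ a, A' u ⊆ B) := by
  classical
  -- the first phase
  have hph1 : ∃ r ≤ q, ∃ β B, τ.v r β B ∧ ∃ (A2 : List ℕ → Set ℕ) (a0 : Finset (List ℕ)),
      a0 ⊆ Act ∧ (∀ u ∈ a0, A2 u ⊆ B ∩ A u ∧ (S u).pos (A2 u) ∧
        Bdd r.s r.h q.d r.d k (A2 u)) ∧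
      (¬ (Gd τ q k a S A G).Countable → β ∉ used ∧ (↑G : Set ℕ) ⊆ B ∧ a ⊆ a0) := by
    by_cases hc : (Gd τ q k a S A G).Countable
    · obtain ⟨r, hr, B, hB⟩ := τ.tot q q.d
      exact ⟨r, hr, q.d, B, hB, fun _ => ∅, ∅, Finset.empty_subset _,
        fun u hu => absurd hu (Finset.notMem_empty u), fun h => absurd hc h⟩
    · have h1 : ∃ β ∈ Gd τ q k a S A G, β ∉ used := by
        by_contra hcon
        push Not at hcon
        exact hc (used.countable_toSet.mono hcon)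
      obtain ⟨β, ⟨r, hr, B, hB1, hB2, hB3⟩, hβ⟩ := h1
      choose! A2 hA2 using hB3
      exact ⟨r, hr, β, B, hB1, A2, a, ha, hA2, fun _ => ⟨hβ, hB2, Finset.Subset.refl _⟩⟩
  obtain ⟨r, hr, β, B, hv, A2, a0, ha0, hA2, huse⟩ := hph1
  obtain ⟨Z₀, hZ1, hZ2⟩ := push hW hr
  let A1 : List ℕ → Set ℕ := fun u => if u ∈ a0 then A2 u else A u ∩ Z₀
  have hA1 : ∀ u ∈ Act, A1 u ⊆ A u ∧ (S u).pos (A1 u) := by
    intro u hu
    by_cases h0 : u ∈ a0
    · simp only [A1, if_pos h0]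
      exact ⟨(hA2 u h0).1.trans inter_subset_right, (hA2 u h0).2.1⟩
    · simp only [A1, if_neg h0]
      exact ⟨inter_subset_left, pos_inter_hit q.hYi hZ1 (hA u hu).1 (hA u hu).2.1
        (hA u hu).2.2⟩
  have hA1b : Bdd r.s r.h q.d r.d k (⋃ u ∈ Act, A1 u) := by
    have h1 : Bdd r.s r.h q.d r.d k ((⋃ u ∈ a0, A2 u) ∪ Z₀) :=
      (Bdd.biUnion a0 A2 fun u hu => (hA2 u hu).2.2).union (Bdd.zero hZ2)
    refine h1.sub ?_
    intro z hz
    simp only [mem_iUnion, exists_prop] at hz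
    obtain ⟨u, hu, hz⟩ := hz
    by_cases h0 : u ∈ a0
    · simp only [A1, if_pos h0] at hz
      exact Or.inl (by simp only [mem_iUnion, exists_prop]; exact ⟨u, h0, hz⟩)
    · simp only [A1, if_neg h0] at hz
      exact Or.inr hz.2
  -- record
  obtain ⟨r1, hr1, hd1, hs1, hh1, _, hY1⟩ := record r (A1 '' ↑Act)
    ((Finset.finite_toSet Act).image A1).countable
  obtain ⟨r2, hr2, hd2⟩ := exists_grow hW r1
  obtain ⟨r3, hr3, hB3⟩ := τ.mem r2 β B (τ.mono r r2 β B (hr2.trans hr1) hv)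
  have hr31 : r3 ≤ r1 := hr3.trans hr2
  obtain ⟨Z₁, hZ3, hZ4⟩ := push hW hr31
  let A' : List ℕ → Set ℕ := fun u => A1 u ∩ Z₁
  have hA' : ∀ u ∈ Act, (S u).pos (A' u) := by
    intro u hu
    exact pos_inter_hit r1.hYi hZ3 (hY1 ⟨u, hu, rfl⟩)
      (Al_mono (hr1.2.2.2.1.trans' hr.2.2.2.1) (hA u hu).2.1) (hA1 u hu).2
  obtain ⟨q', hq', hdq, hsq, hhq, _, hYq⟩ := record r3 (A' '' ↑Act)
    ((Finset.finite_toSet Act).image A').countable
  have hqq : q' ≤ q := hq'.trans (hr31.trans (hr1.trans hr))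
  have hqr : q' ≤ r := hq'.trans (hr31.trans hr1)
  have hlt : q.d < q'.d := by
    calc q.d ≤ r.d := hr.1
      _ = r1.d := hd1.symm
      _ < r2.d := hd2
      _ ≤ r3.d := hr3.1
      _ = q'.d := hdq.symm
  refine ⟨q', hqq, hlt, A', fun u hu => ⟨inter_subset_left.trans (hA1 u hu).1,
    hYq ⟨u, hu, rfl⟩, hA' u hu⟩, ?_, insert β used, Finset.subset_insert _ _, fun hc =>
    ⟨β, (huse hc).1, Finset.mem_insert_self _ _, B, τ.mono r q' β B hqr hv,
      F_mono hq' hB3, (huse hc).2.1, ?_⟩⟩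
  · refine Bdd.glue (d := r.d) ?_ ?_
    · refine (hA1b.congr (s' := q'.s) (h' := q'.h) (fun x hx => hqr.2.1 x hx)
        (fun x hx => hqr.2.2.1 x hx)).sub ?_
      exact iUnion₂_mono fun u _ => inter_subset_left
    · refine Bdd.sub (A := Z₁) (Bdd.zero ?_) ?_
      · intro x hx hx'
        rw [hhq]
        exact hZ4 x (by rw [hd1]; exact hx) (by rw [← hdq]; exact hx')
      · exact iUnion₂_subset fun u _ => inter_subset_right
  · intro u hu
    have h0 : u ∈ a0 := (huse hc).2.2 hu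
    have h1 : A1 u = A2 u := if_pos h0
    show A1 u ∩ Z₁ ⊆ B
    rw [h1]
    exact inter_subset_left.trans ((hA2 u h0).1.trans inter_subset_left)

end Pool.Agent.H99.FB
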