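import Mathlib

/-!
# Well-founded trees of columns and iterated Fubini positivity

A tree is a leaf carrying a set of natural numbers, or a node with a sequence of subtrees. A set
`A` is positive for a leaf `C` if it has infinitely many elements in `C`, and it is positive for a
node if it is positive for infinitely many of the subtrees.
-/

set_option autoImplicit false

namespace Pool.Agent.H99.FB

open Set

/-- Well-founded trees whose leaves carry sets of natural numbers. -/
inductive Tr : Type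
  | leaf (C : Set ℕ) : Tr
  | node (f : ℕ → Tr) : Tr

/-- `A` is positive for the tree. -/
def Tr.pos : Tr → Set ℕ → Prop
  | .leaf C, A => (A ∩ C).Infinite
  | .node f, A => ∀ N, ∃ n ≥ N, (f n).pos A

/-- All the leaf sets are in `Y`. -/
def Tr.Al (Y : Set (Set ℕ)) : Tr → Prop
  | .leaf C => C ∈ Y
  | .node f => ∀ n, (f n).Al Y

/-- Intersect all the leaf sets with `Z`. -/
def Tr.restr (Z : Set ℕ) : Tr → Tr
  | .leaf C => .leaf (C ∩ Z)
  | .node f => .node fun n => (f n).restr Z

/-- The subtree at an address. -/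
def Tr.sub : Tr → List ℕ → Tr
  | T, [] => T
  | .leaf _, _ :: _ => .leaf ∅
  | .node f, j :: t => (f j).sub t

/-- Replace the leaf set at each address by the given one. -/
def Tr.rel (X : List ℕ → Set ℕ) : Tr → List ℕ → Tr
  | .leaf _, u => .leaf (X u)
  | .node f, u => .node fun j => (f j).rel X (u ++ [j])

theorem pos_mono {T : Tr} {A A' : Set ℕ} (hA : A ⊆ A') (h : T.pos A) : T.pos A' := by
  induction T with
  | leaf C => exact Set.Infinite.mono (inter_subset_inter_left _ hA) h
  | node f ih =>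
    intro N
    obtain ⟨n, hn, h1⟩ := h N
    exact ⟨n, hn, ih n h1⟩

theorem pos_union {T : Tr} {A A' : Set ℕ} (h : T.pos (A ∪ A')) : T.pos A ∨ T.pos A' := by
  induction T with
  | leaf C =>
    by_contra hcon
    simp only [Tr.pos, not_or, Set.not_infinite] at hcon
    apply (show ((A ∪ A') ∩ C).Infinite from h)
    rw [union_inter_distrib_right]
    exact hcon.1.union hcon.2
  | node f ih =>
    by_contra hcon
    simp only [Tr.pos, not_or, not_forall, not_exists, not_and] at hcon
    obtain ⟨⟨N, hN⟩, ⟨N', hN'⟩⟩ := hcon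
    obtain ⟨n, hn, h1⟩ := h (max N N')
    rcases ih n h1 with h2 | h2
    · exact hN n (le_of_max_le_left hn) h2
    · exact hN' n (le_of_max_le_right hn) h2

theorem pos_infinite {T : Tr} {A : Set ℕ} (h : T.pos A) : A.Infinite := by
  induction T with
  | leaf C => exact Set.Infinite.mono inter_subset_left h
  | node f ih =>
    obtain ⟨n, _, h1⟩ := h 0
    exact ih n h1

theorem not_pos_finite {T : Tr} {A : Set ℕ} (h : A.Finite) : ¬ T.pos A :=
  fun h' => pos_infinite h' h

/-- `B` is in the filter of the tree. -/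
def Tr.big (T : Tr) (B : Set ℕ) : Prop := ¬ T.pos Bᶜ

theorem pos_inter_big {T : Tr} {A B : Set ℕ} (h : T.pos A) (hB : T.big B) : T.pos (A ∩ B) := by
  have h1 : A = (A ∩ B) ∪ (A ∩ Bᶜ) := (inter_union_compl A B).symm
  rw [h1] at h
  rcases pos_union h with h2 | h2
  · exact h2
  · exact absurd (pos_mono inter_subset_right h2) hB

theorem pos_inter_of_finite {T : Tr} {A B : Set ℕ} (h : T.pos A) (hB : (A \ B).Finite) :
    T.pos (A ∩ B) := by
  have h1 : A = (A ∩ B) ∪ (A \ B) := (inter_union_sdiff A B).symm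
  rw [h1] at h
  rcases pos_union h with h2 | h2
  · exact h2
  · exact absurd hB (pos_infinite h2)

theorem big_up {T : Tr} {B B' : Set ℕ} (h : T.big B) (hB : B ⊆ B') : T.big B' :=
  fun h' => h (pos_mono (compl_subset_compl.2 hB) h')

theorem big_inter {T : Tr} {B B' : Set ℕ} (h : T.big B) (h' : T.big B') : T.big (B ∩ B') := by
  intro h1
  rw [compl_inter] at h1
  rcases pos_union h1 with h2 | h2
  · exact h h2
  · exact h' h2

theorem Al_mono {Y Y' : Set (Set ℕ)} (hY : Y ⊆ Y') {T : Tr} (h : T.Al Y) : T.Al Y' := by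
  induction T with
  | leaf C => exact hY h
  | node f ih => exact fun n => ih n (h n)

theorem Al_restr {Y : Set (Set ℕ)} (hY : ∀ A ∈ Y, ∀ B ∈ Y, A ∩ B ∈ Y) {Z : Set ℕ} (hZ : Z ∈ Y)
    {T : Tr} (h : T.Al Y) : (T.restr Z).Al Y := by
  induction T with
  | leaf C => exact hY _ h _ hZ
  | node f ih => exact fun n => ih n (h n)

theorem pos_restr {Z : Set ℕ} {T : Tr} {A : Set ℕ} : (T.restr Z).pos A ↔ T.pos (A ∩ Z) := by
  induction T with
  | leaf C =>
    simp only [Tr.restr, Tr.pos]
    rw [show A ∩ (C ∩ Z) = A ∩ Z ∩ C by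
      ext x; simp only [mem_inter_iff]; tauto]
  | node f ih =>
    simp only [Tr.restr, Tr.pos]
    exact forall_congr' fun N => exists_congr fun n => and_congr_right fun _ => ih n

/-- a set which hits all the infinite members of `Y` is positive -/
theorem pos_inter_hit {Y : Set (Set ℕ)} (hY : ∀ A ∈ Y, ∀ B ∈ Y, A ∩ B ∈ Y) {Z : Set ℕ}
    (hZ : ∀ C ∈ Y, C.Infinite → (C ∩ Z).Infinite) {A : Set ℕ} (hA : A ∈ Y) {T : Tr}
    (h : T.Al Y) (hp : T.pos A) : T.pos (A ∩ Z) := by
  induction T with
  | leaf C =>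
    have h1 := hZ _ (hY _ hA _ h) hp
    refine Set.Infinite.mono ?_ h1
    intro x hx
    exact ⟨⟨hx.1.1, hx.2⟩, hx.1.2⟩
  | node f ih =>
    intro N
    obtain ⟨n, hn, h1⟩ := hp N
    exact ⟨n, hn, ih n (h n) h1⟩

theorem Al_sub {Y : Set (Set ℕ)} (he : ∅ ∈ Y) {T : Tr} (h : T.Al Y) (t : List ℕ) :
    (T.sub t).Al Y := by
  induction T generalizing t with
  | leaf C =>
    cases t with
    | nil => exact h
    | cons j t => exact he
  | node f ih =>
    cases t with
    | nil => exact h
    | cons j t => exact ih j (h j) t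

theorem sub_append_node {T : Tr} {u : List ℕ} {f : ℕ → Tr} (h : T.sub u = .node f) (j : ℕ) :
    T.sub (u ++ [j]) = f j := by
  induction T generalizing u with
  | leaf C =>
    cases u with
    | nil => simp [Tr.sub] at h
    | cons i t => simp [Tr.sub] at h
  | node g ih =>
    cases u with
    | nil =>
      simp only [Tr.sub, Tr.node.injEq] at h
      subst h
      simp [Tr.sub]
    | cons i t =>
      simp only [Tr.sub, List.cons_append] at h ⊢
      exact ih i h

/-- the subtree of a relabelled tree -/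
theorem sub_rel {X : List ℕ → Set ℕ} {T : Tr} {u t : List ℕ} {A : Set ℕ}
    (h : ((T.rel X u).sub t).pos A) : (T.rel X u).sub t = (T.sub t).rel X (u ++ t) := by
  induction T generalizing u t with
  | leaf C =>
    cases t with
    | nil => simp [Tr.rel, Tr.sub]
    | cons j t =>
      exfalso
      simp only [Tr.rel, Tr.sub, Tr.pos, inter_empty] at h
      exact h finite_empty
  | node f ih =>
    cases t with
    | nil => simp [Tr.rel, Tr.sub]
    | cons j t =>
      have h1 : ((f j).rel X (u ++ [j])).sub t = ((f j).sub t).rel X (u ++ [j] ++ t) := ih j h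
      simp only [Tr.rel, Tr.sub]
      rw [h1]
      simp

/-- Every element is visited infinitely often. -/
theorem exists_visits (α : Type) [Countable α] [Nonempty α] :
    ∃ e : ℕ → α, ∀ a, ∀ N, ∃ n ≥ N, e n = a := by
  obtain ⟨g, hg⟩ := exists_surjective_nat α
  refine ⟨fun n => g (Nat.unpair n).1, fun a N => ?_⟩
  obtain ⟨m, rfl⟩ := hg a
  exact ⟨Nat.pair m N, Nat.right_le_pair m N, by simp⟩

/-- Diagonalization: a thin set which hits all the infinite members of a countable family and is
almost contained in all the `Q i`. -/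
theorem exists_diag (Y : Set (Set ℕ)) (hY : Y.Countable) (Q : ℕ → Set ℕ) (f : ℕ → ℕ)
    (h : ∀ C ∈ Y, C.Infinite → ∀ n, (C ∩ {z | ∀ i < n, z ∈ Q i}).Infinite) :
    ∃ Z : Set ℕ, (∀ C ∈ Y, C.Infinite → (C ∩ Z).Infinite) ∧ (∀ i, (Z \ Q i).Finite) ∧
      ∀ n, (Z ∩ {z | z < f n}).ncard ≤ n := by
  classical
  by_cases hne : ∃ C ∈ Y, C.Infinite
  · obtain ⟨C₀, hC₀, hC₀i⟩ := hne
    have : Countable {C | C ∈ Y ∧ C.Infinite} := (hY.mono fun C hC => hC.1).to_subtype
    have : Nonempty {C | C ∈ Y ∧ C.Infinite} := ⟨⟨C₀, hC₀, hC₀i⟩⟩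
    obtain ⟨e, he⟩ := exists_visits {C | C ∈ Y ∧ C.Infinite}
    let g : ℕ → ℕ := fun n => (Finset.range (n + 1)).sup f
    have hg : ∀ n m, n ≤ m → f n ≤ g m := fun n m hnm =>
      Finset.le_sup (f := f) (Finset.mem_range.2 (by omega))
    have h1 : ∀ n, ∃ z, z ∈ (e n).1 ∧ (∀ i < n, z ∈ Q i) ∧ max n (g n) < z := by
      intro n
      obtain ⟨z, hz, hz'⟩ := (h (e n).1 (e n).2.1 (e n).2.2 n).exists_gt (max n (g n))
      exact ⟨z, hz.1, hz.2, hz'⟩
    choose z hz1 hz2 hz3 using h1
    refine ⟨range z, ?_, ?_, ?_⟩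
    · intro C hC hCi
      refine Set.infinite_of_forall_exists_gt fun N => ?_
      obtain ⟨n, hn, hn'⟩ := he ⟨C, hC, hCi⟩ N
      refine ⟨z n, ⟨?_, n, rfl⟩, ?_⟩
      · have := hz1 n
        rw [hn'] at this
        exact this
      · exact lt_of_le_of_lt hn (lt_of_le_of_lt (le_max_left _ _) (hz3 n))
    · intro i
      refine ((Finset.range (i + 1)).image z).finite_toSet.subset ?_
      rintro _ ⟨⟨n, rfl⟩, hn⟩
      simp only [Finset.coe_image, Finset.coe_range, mem_image, mem_Iio]
      refine ⟨n, ?_, rfl⟩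
      by_contra hcon
      exact hn (hz2 n i (by omega))
    · intro n
      have h2 : range z ∩ {z | z < f n} ⊆ ((Finset.range n).image z : Finset ℕ) := by
        rintro _ ⟨⟨j, rfl⟩, hj⟩
        simp only [Finset.coe_image, Finset.coe_range, mem_image, mem_Iio]
        refine ⟨j, ?_, rfl⟩
        by_contra hcon
        push Not at hcon
        have h3 := hg n j hcon
        have h4 := hz3 j
        have h5 : z j < f n := hj
        have h6 := le_max_right j (g j)
        omega
      refine (Set.ncard_le_ncard h2 (Finset.finite_toSet _)).trans ?_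
      rw [Set.ncard_coe_finset]
      exact Finset.card_image_le.trans (by simp)
  · refine ⟨∅, fun C hC hCi => absurd ⟨C, hC, hCi⟩ hne, fun i => by simp, fun n => by simp⟩

/-- Closure under finite intersections. -/
def Cl (S : Set (Set ℕ)) : Set (Set ℕ) := (fun F => ⋂₀ F) '' {F | F.Finite ∧ F ⊆ S}

theorem subset_Cl (S : Set (Set ℕ)) : S ⊆ Cl S := fun A hA =>
  ⟨{A}, ⟨finite_singleton A, singleton_subset_iff.2 hA⟩, by simp⟩

theorem Cl_countable {S : Set (Set ℕ)} (h : S.Countable) : (Cl S).Countable :=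
  (Set.countable_ofPred_finite_subset h).image _

theorem Cl_inter {S : Set (Set ℕ)} : ∀ A ∈ Cl S, ∀ B ∈ Cl S, A ∩ B ∈ Cl S := by
  rintro _ ⟨F, ⟨hF, hFS⟩, rfl⟩ _ ⟨G, ⟨hG, hGS⟩, rfl⟩
  exact ⟨F ∪ G, ⟨hF.union hG, union_subset hFS hGS⟩, by simp [sInter_union]⟩

theorem univ_mem_Cl (S : Set (Set ℕ)) : univ ∈ Cl S := ⟨∅, ⟨finite_empty, empty_subset _⟩, by simp⟩

end Pool.Agent.H99.FB
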